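import Mathlib

set_option autoImplicit false

namespace SY

/-- compatibility of two positions (class, level) of adjacent vertices: the classes differ, and
going from class `i` to class `i+1` (mod 3) the level does not decrease -/
def OK (p q : Fin 3 × ℕ) : Prop :=
  (q.1 = p.1 + 1 ∧ p.2 ≤ q.2) ∨ (p.1 = q.1 + 1 ∧ q.2 ≤ p.2)

instance (p q : Fin 3 × ℕ) : Decidable (OK p q) := by unfold OK; infer_instance

/-- `S` can be arranged on `m` levels (for `S.card = 3 * m` all positions are used) -/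
def Arr {V : Type} (H : SimpleGraph V) (S : Finset V) (m : ℕ) : Prop :=
  ∃ φ : V → Fin 3 × ℕ, Set.InjOn φ (S : Set V) ∧ (∀ v ∈ S, (φ v).2 < m) ∧
    ∀ x ∈ S, ∀ y ∈ S, H.Adj x y → OK (φ x) (φ y)

open Classical in
/-- number of neighbours of `v` in `S` -/
noncomputable def dg {V : Type} (H : SimpleGraph V) (S : Finset V) (v : V) : ℕ :=
  (S.filter (fun w => H.Adj v w)).card

/-- `c` is a component of `H` on `S` which is a cycle of length `l` (`l ≥ 3`), an edge (`l = 2`)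
or an isolated vertex (`l = 1`) -/
def Cyc {V : Type} (H : SimpleGraph V) (S : Finset V) (l : ℕ) (c : Fin l → V) : Prop :=
  Function.Injective c ∧ (∀ i, c i ∈ S) ∧
  (∀ i j : Fin l, (i.val + 1) % l = j.val → i ≠ j → H.Adj (c i) (c j)) ∧
  ∀ i : Fin l, ∀ w ∈ S, H.Adj (c i) w →
    ∃ j : Fin l, w = c j ∧ ((i.val + 1) % l = j.val ∨ (j.val + 1) % l = i.val)

/-- a path `x v1 v2 v3 y` with inner vertices without further neighbours in `S`, `x y` not adjacent -/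
def Red {V : Type} (H : SimpleGraph V) (S : Finset V) : Prop :=
  ∃ x v1 v2 v3 y : V, x ∈ S ∧ v1 ∈ S ∧ v2 ∈ S ∧ v3 ∈ S ∧ y ∈ S ∧
    [x, v1, v2, v3, y].Nodup ∧ H.Adj x v1 ∧ H.Adj v3 y ∧ ¬ H.Adj x y ∧
    (∀ w ∈ S, H.Adj v1 w → w = x ∨ w = v2) ∧
    (∀ w ∈ S, H.Adj v2 w → w = v1 ∨ w = v3) ∧
    (∀ w ∈ S, H.Adj v3 w → w = v2 ∨ w = y)

/-- `S` contains a nonempty closed part which can be arranged -/
def Out {V : Type} (H : SimpleGraph V) (S : Finset V) : Prop :=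
  ∃ (T : Finset V) (q : ℕ), 0 < q ∧ T ⊆ S ∧ T.card = 3 * q ∧
    (∀ a ∈ T, ∀ b ∈ S, H.Adj a b → b ∈ T) ∧ Arr H T q

end SY
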