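import Pool.Agent.Helper353.SY.Defs

set_option autoImplicit false

namespace SY



theorem blk {V ι : Type} [DecidableEq V] [Fintype ι] [DecidableEq ι] (H : SimpleGraph V)
    (f : ι → V) (E : ι → ι → Prop) (π : ι → Fin 3 × ℕ) (q : ℕ)
    (hf : Function.Injective f) (hπ : Function.Injective π) (hq : ∀ i, (π i).2 < q)
    (hE : ∀ i j, E i j → OK (π i) (π j)) (hH : ∀ i j, H.Adj (f i) (f j) → E i j) :
    Arr H (Finset.univ.image f) q := by
  refine ⟨Function.extend f π (fun _ => (0, 0)), ?_, ?_, ?_⟩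
  · intro x hx y hy hxy
    simp only [Finset.coe_image, Finset.coe_univ, Set.image_univ, Set.mem_range] at hx hy
    obtain ⟨i, rfl⟩ := hx
    obtain ⟨j, rfl⟩ := hy
    rw [hf.extend_apply, hf.extend_apply] at hxy
    rw [hπ hxy]
  · intro v hv
    simp only [Finset.mem_image, Finset.mem_univ, true_and] at hv
    obtain ⟨i, rfl⟩ := hv
    rw [hf.extend_apply]
    exact hq i
  · intro x hx y hy hxy
    simp only [Finset.mem_image, Finset.mem_univ, true_and] at hx hy
    obtain ⟨i, rfl⟩ := hx
    obtain ⟨j, rfl⟩ := hy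
    rw [hf.extend_apply, hf.extend_apply]
    exact hE i j (hH i j hxy)

end SY
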