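import Pool.Agent.Helper353.SY.Defs
import Pool.Agent.Helper353.SY.P_blk

set_option autoImplicit false

namespace SY



def pi144 : Fin 1 ⊕ Fin 4 ⊕ Fin 4 → Fin 3 × ℕ
  | Sum.inl _ => (0, 0)
  | Sum.inr (Sum.inl i) => ![(1,0),(2,0),(0,2),(2,1)] i
  | Sum.inr (Sum.inr i) => ![(0,1),(1,1),(2,2),(1,2)] i

def E144 : Fin 1 ⊕ Fin 4 ⊕ Fin 4 → Fin 1 ⊕ Fin 4 ⊕ Fin 4 → Bool
  | Sum.inr (Sum.inl i), Sum.inr (Sum.inl j) =>
    decide ((i.val + 1) % 4 = j.val ∨ (j.val + 1) % 4 = i.val)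
  | Sum.inr (Sum.inr i), Sum.inr (Sum.inr j) =>
    decide ((i.val + 1) % 4 = j.val ∨ (j.val + 1) % 4 = i.val)
  | _, _ => false

theorem Cyc.no_adj {V : Type} {H : SimpleGraph V} {S : Finset V} {l m : ℕ} {c : Fin l → V}
    {d : Fin m → V} (hc : Cyc H S l c) (hd : Cyc H S m d) (h : ∀ i j, c i ≠ d j) (i : Fin l)
    (j : Fin m) : ¬ H.Adj (c i) (d j) := by
  intro ha
  obtain ⟨k, hk, _⟩ := hc.2.2.2 i (d j) (hd.2.1 j) ha
  exact h k j hk.symm

theorem Cyc.adj_imp {V : Type} {H : SimpleGraph V} {S : Finset V} {l : ℕ} {c : Fin l → V}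
    (hc : Cyc H S l c) (i j : Fin l) (ha : H.Adj (c i) (c j)) :
    (i.val + 1) % l = j.val ∨ (j.val + 1) % l = i.val := by
  obtain ⟨k, hk, h⟩ := hc.2.2.2 i (c j) (hc.2.1 j) ha
  have := hc.1 hk
  rwa [this]

theorem b144 {V : Type} [DecidableEq V] (H : SimpleGraph V) (S : Finset V)
    (b : Fin 1 → V) (c : Fin 4 → V) (e : Fin 4 → V) (hb : Cyc H S 1 b) (hc : Cyc H S 4 c)
    (he : Cyc H S 4 e) (h1 : ∀ i j, b i ≠ c j) (h2 : ∀ i j, b i ≠ e j) (h3 : ∀ i j, c i ≠ e j) :
    Arr H (Finset.univ.image b ∪ Finset.univ.image c ∪ Finset.univ.image e) 3 := by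
  have him : Finset.univ.image b ∪ Finset.univ.image c ∪ Finset.univ.image e =
      Finset.univ.image (Sum.elim b (Sum.elim c e)) := by
    ext v
    simp only [Finset.mem_union, Finset.mem_image, Finset.mem_univ, true_and, Sum.exists,
      Sum.elim_inl, Sum.elim_inr, or_assoc]
  rw [him]
  refine blk H _ (fun i j => E144 i j = true) pi144 3 ?_ ?_ ?_ ?_ ?_
  · rintro (i | i | i) (j | j | j) h <;> simp only [Sum.elim_inl, Sum.elim_inr] at h
    · rw [hb.1 h]
    · exact absurd h (h1 i j)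
    · exact absurd h (h2 i j)
    · exact absurd h.symm (h1 j i)
    · rw [hc.1 h]
    · exact absurd h (h3 i j)
    · exact absurd h.symm (h2 j i)
    · exact absurd h.symm (h3 j i)
    · rw [he.1 h]
  · unfold Function.Injective
    decide
  · decide
  · decide
  · rintro (i | i | i) (j | j | j) h <;> simp only [Sum.elim_inl, Sum.elim_inr] at h
    · rw [Subsingleton.elim i j] at h
      exact absurd h (H.loopless.irrefl _)
    · exact absurd h (hb.no_adj hc h1 i j)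
    · exact absurd h (hb.no_adj he h2 i j)
    · exact absurd h.symm (hb.no_adj hc h1 j i)
    · simpa [E144] using hc.adj_imp i j h
    · exact absurd h (hc.no_adj he h3 i j)
    · exact absurd h.symm (hb.no_adj he h2 j i)
    · exact absurd h.symm (hc.no_adj he h3 j i)
    · simpa [E144] using he.adj_imp i j h

end SY
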