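import Pool.Agent.Helper353.SY.Defs
import Pool.Agent.Helper353.SY.P_blk

set_option autoImplicit false

namespace SY



theorem b15 {V : Type} [DecidableEq V] (H : SimpleGraph V) (S : Finset V)
    (c : Fin 1 → V) (e : Fin 5 → V) (hc : Cyc H S 1 c) (he : Cyc H S 5 e)
    (hd : ∀ i j, c i ≠ e j) : Arr H (Finset.univ.image c ∪ Finset.univ.image e) 2 := by
  have himg : Finset.univ.image c ∪ Finset.univ.image e =
      Finset.univ.image (Sum.elim c e) := by
    ext v
    simp only [Finset.mem_union, Finset.mem_image, Finset.mem_univ, true_and, Sum.exists,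
      Sum.elim_inl, Sum.elim_inr]
  rw [himg]
  let E : Fin 1 ⊕ Fin 5 → Fin 1 ⊕ Fin 5 → Prop := fun a b =>
    match a, b with
    | .inr i, .inr j => (i.val + 1) % 5 = j.val ∨ (j.val + 1) % 5 = i.val
    | _, _ => False
  let π : Fin 1 ⊕ Fin 5 → Fin 3 × ℕ := fun a =>
    match a with
    | .inl _ => (0, 0)
    | .inr i => ![((1 : Fin 3), 0), (2, 0), (0, 1), (1, 1), (2, 1)] i
  refine blk H (Sum.elim c e) E π 2 ?_ ?_ ?_ ?_ ?_
  · exact hc.1.sumElim he.1 hd
  · rintro (i | i) (j | j) h
    · congr 1
      exact Subsingleton.elim _ _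
    · exfalso
      revert h
      fin_cases j <;> simp [π]
    · exfalso
      revert h
      fin_cases i <;> simp [π]
    · congr 1
      revert h
      fin_cases i <;> fin_cases j <;> simp [π]
  · rintro (i | i)
    · simp [π]
    · fin_cases i <;> simp [π]
  · rintro (i | i) (j | j) h
    · exact h.elim
    · exact h.elim
    · exact h.elim
    · revert h
      fin_cases i <;> fin_cases j <;> simp [E, π, OK]
  · rintro (i | i) (j | j) h
    · have hij : i = j := Subsingleton.elim _ _
      subst hij
      exact (H.irrefl h).elim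
    · obtain ⟨j', hj', _⟩ := hc.2.2.2 i (e j) (he.2.1 j) h
      exact (hd j' j hj'.symm).elim
    · obtain ⟨j', hj', _⟩ := he.2.2.2 i (c j) (hc.2.1 j) h
      exact (hd j j' hj').elim
    · obtain ⟨j', hj', h'⟩ := he.2.2.2 i (e j) (he.2.1 j) h
      have := he.1 hj'
      subst this
      exact h'

end SY
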