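import Pool.Agent.Helper353.SY.Defs
import Pool.Agent.Helper353.SY.P_blk

set_option autoImplicit false

namespace SY



/-- adjacency in the union of an edge and a 4-cycle -/
def E24 : Fin 2 ⊕ Fin 4 → Fin 2 ⊕ Fin 4 → Bool
  | Sum.inl i, Sum.inl j => decide ((i.val + 1) % 2 = j.val ∨ (j.val + 1) % 2 = i.val)
  | Sum.inr i, Sum.inr j => decide ((i.val + 1) % 4 = j.val ∨ (j.val + 1) % 4 = i.val)
  | _, _ => false

/-- the positions -/
def P24 : Fin 2 ⊕ Fin 4 → Fin 3 × ℕ :=
  Sum.elim ![(0, 0), (1, 1)] ![(1, 0), (2, 0), (0, 1), (2, 1)]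

theorem b24 {V : Type} [DecidableEq V] (H : SimpleGraph V) (S : Finset V)
    (c : Fin 2 → V) (e : Fin 4 → V) (hc : Cyc H S 2 c) (he : Cyc H S 4 e)
    (hd : ∀ i j, c i ≠ e j) : Arr H (Finset.univ.image c ∪ Finset.univ.image e) 2 := by
  obtain ⟨hc1, hc2, hc3, hc4⟩ := hc
  obtain ⟨he1, he2, he3, he4⟩ := he
  have hun : Finset.univ.image (Sum.elim c e) = Finset.univ.image c ∪ Finset.univ.image e := by
    ext v
    simp [Finset.mem_image, Finset.mem_union]
  rw [← hun]
  refine blk H (Sum.elim c e) (fun i j => E24 i j = true) P24 2 ?_ ?_ ?_ ?_ ?_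
  · rintro (i | i) (j | j) h
    · exact congrArg _ (hc1 h)
    · exact absurd h (hd i j)
    · exact absurd h.symm (hd j i)
    · exact congrArg _ (he1 h)
  · decide
  · decide
  · decide
  · rintro (i | i) (j | j) h
    · obtain ⟨j', h1, h2⟩ := hc4 i (c j) (hc2 j) h
      have := hc1 h1
      subst this
      exact decide_eq_true h2
    · obtain ⟨j', h1, -⟩ := hc4 i (e j) (he2 j) h
      exact absurd h1.symm (hd j' j)
    · obtain ⟨j', h1, -⟩ := he4 i (c j) (hc2 j) h
      exact absurd h1 (hd j j')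
    · obtain ⟨j', h1, h2⟩ := he4 i (e j) (he2 j) h
      have := he1 h1
      subst this
      exact decide_eq_true h2

end SY
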