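import Pool.Agent.Helper353.SY.Defs
import Pool.Agent.Helper353.SY.P_blk

set_option autoImplicit false

namespace SY



theorem b255 {V : Type} [DecidableEq V] (H : SimpleGraph V) (S : Finset V)
    (b : Fin 2 → V) (c : Fin 5 → V) (e : Fin 5 → V) (hb : Cyc H S 2 b) (hc : Cyc H S 5 c)
    (he : Cyc H S 5 e) (h1 : ∀ i j, b i ≠ c j) (h2 : ∀ i j, b i ≠ e j) (h3 : ∀ i j, c i ≠ e j) :
    Arr H (Finset.univ.image b ∪ Finset.univ.image c ∪ Finset.univ.image e) 4 := by
  have himg : Finset.univ.image b ∪ Finset.univ.image c ∪ Finset.univ.image e =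
      Finset.univ.image (Sum.elim b (Sum.elim c e)) := by
    ext x
    simp only [Finset.mem_union, Finset.mem_image, Finset.mem_univ, true_and, Sum.exists,
      Sum.elim_inl, Sum.elim_inr]
    tauto
  have key : ∀ (l l' : ℕ) (u : Fin l → V) (v : Fin l' → V), Cyc H S l u → Cyc H S l' v →
      (∀ i j, u i ≠ v j) → ∀ i j, ¬ H.Adj (u i) (v j) := by
    intro l l' u v hu hv huv i j hadj
    obtain ⟨j', hj', _⟩ := hu.2.2.2 i (v j) (hv.2.1 j) hadj
    exact huv j' j hj'.symm
  have keys : ∀ (l : ℕ) (u : Fin l → V), Cyc H S l u → ∀ i j, H.Adj (u i) (u j) →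
      ((i.val + 1) % l = j.val ∨ (j.val + 1) % l = i.val) := by
    intro l u hu i j hadj
    obtain ⟨j', hj', h⟩ := hu.2.2.2 i (u j) (hu.2.1 j) hadj
    have : j = j' := hu.1 hj'
    rw [this]
    exact h
  rw [himg]
  apply blk H (Sum.elim b (Sum.elim c e)) (fun i j => H.Adj (Sum.elim b (Sum.elim c e) i)
    (Sum.elim b (Sum.elim c e) j))
    (Sum.elim (![(0, 0), (1, 0)] : Fin 2 → Fin 3 × ℕ)
      (Sum.elim (![(2, 0), (0, 1), (1, 1), (2, 1), (0, 2)] : Fin 5 → Fin 3 × ℕ)
        (![(1, 2), (2, 2), (0, 3), (1, 3), (2, 3)] : Fin 5 → Fin 3 × ℕ))) 4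
  · apply hb.1.sumElim (hc.1.sumElim he.1 h3)
    rintro i (j | j)
    · exact h1 i j
    · exact h2 i j
  · decide
  · decide
  · rintro (i | i | i) (j | j | j) hadj
    · have h := keys 2 b hb i j hadj
      simp only [Sum.elim_inl]
      revert i j
      have : ∀ i j : Fin 2, ((i.val + 1) % 2 = j.val ∨ (j.val + 1) % 2 = i.val) →
        OK ((![(0, 0), (1, 0)] : Fin 2 → Fin 3 × ℕ) i)
          ((![(0, 0), (1, 0)] : Fin 2 → Fin 3 × ℕ) j) := by decide
      exact fun i j _ h => this i j h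
    · exact absurd hadj (key 2 5 b c hb hc h1 i j)
    · exact absurd hadj (key 2 5 b e hb he h2 i j)
    · exact absurd hadj (key 5 2 c b hc hb (fun i j => (h1 j i).symm) i j)
    · have h := keys 5 c hc i j hadj
      simp only [Sum.elim_inl, Sum.elim_inr]
      revert i j
      have : ∀ i j : Fin 5, ((i.val + 1) % 5 = j.val ∨ (j.val + 1) % 5 = i.val) →
        OK ((![(2, 0), (0, 1), (1, 1), (2, 1), (0, 2)] : Fin 5 → Fin 3 × ℕ) i)
          ((![(2, 0), (0, 1), (1, 1), (2, 1), (0, 2)] : Fin 5 → Fin 3 × ℕ) j) := by decide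
      exact fun i j _ h => this i j h
    · exact absurd hadj (key 5 5 c e hc he h3 i j)
    · exact absurd hadj (key 5 2 e b he hb (fun i j => (h2 j i).symm) i j)
    · exact absurd hadj (key 5 5 e c he hc (fun i j => (h3 j i).symm) i j)
    · have h := keys 5 e he i j hadj
      simp only [Sum.elim_inr]
      revert i j
      have : ∀ i j : Fin 5, ((i.val + 1) % 5 = j.val ∨ (j.val + 1) % 5 = i.val) →
        OK ((![(1, 2), (2, 2), (0, 3), (1, 3), (2, 3)] : Fin 5 → Fin 3 × ℕ) i)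
          ((![(1, 2), (2, 2), (0, 3), (1, 3), (2, 3)] : Fin 5 → Fin 3 × ℕ) j) := by decide
      exact fun i j _ h => this i j h
  · exact fun i j h => h

end SY
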