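import Pool.Agent.Helper353.SY.Defs
import Pool.Agent.Helper353.SY.P_blk

set_option autoImplicit false

namespace SY



theorem b3 {V : Type} [DecidableEq V] (H : SimpleGraph V) (S : Finset V) (c : Fin 3 → V)
    (hc : Cyc H S 3 c) : Arr H (Finset.univ.image c) 1 := by
  obtain ⟨hinj, hmem, -, hcl⟩ := hc
  refine blk H c (fun i j => (i.val + 1) % 3 = j.val ∨ (j.val + 1) % 3 = i.val)
    (fun i => (i, 0)) 1 hinj ?_ ?_ ?_ ?_
  · intro i j h
    exact (Prod.ext_iff.1 h).1
  · intro i
    exact Nat.zero_lt_one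
  · decide
  · intro i j h
    obtain ⟨j', hj', hE⟩ := hcl i (c j) (hmem j) h
    rw [hinj hj']
    exact hE

end SY
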