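import Pool.Agent.Helper353.SY.Defs
import Pool.Agent.Helper353.SY.P_blk

set_option autoImplicit false

namespace SY



def adj4 (i j : Fin 4) : Prop := (i.val + 1) % 4 = j.val ∨ (j.val + 1) % 4 = i.val

instance (i j : Fin 4) : Decidable (adj4 i j) := by unfold adj4; infer_instance

def E444 : Fin 4 ⊕ Fin 4 ⊕ Fin 4 → Fin 4 ⊕ Fin 4 ⊕ Fin 4 → Prop
  | .inl i, .inl j => adj4 i j
  | .inr (.inl i), .inr (.inl j) => adj4 i j
  | .inr (.inr i), .inr (.inr j) => adj4 i j
  | _, _ => False

def π444 : Fin 4 ⊕ Fin 4 ⊕ Fin 4 → Fin 3 × ℕ :=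
  Sum.elim ![(0,0),(1,0),(2,1),(1,1)] (Sum.elim ![(2,0),(0,1),(1,3),(0,2)] ![(1,2),(2,2),(0,3),(2,3)])

theorem b444 {V : Type} [DecidableEq V] (H : SimpleGraph V) (S : Finset V)
    (b : Fin 4 → V) (c : Fin 4 → V) (e : Fin 4 → V) (hb : Cyc H S 4 b) (hc : Cyc H S 4 c)
    (he : Cyc H S 4 e) (h1 : ∀ i j, b i ≠ c j) (h2 : ∀ i j, b i ≠ e j) (h3 : ∀ i j, c i ≠ e j) :
    Arr H (Finset.univ.image b ∪ Finset.univ.image c ∪ Finset.univ.image e) 4 := by
  have hfe : Finset.univ.image b ∪ Finset.univ.image c ∪ Finset.univ.image e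
      = Finset.univ.image (Sum.elim b (Sum.elim c e)) := by
    ext x
    simp [Sum.exists, or_assoc]
  rw [hfe]
  apply blk H _ E444 π444
  · rintro (i | i | i) (j | j | j) hij
    · exact congrArg _ (hb.1 hij)
    · exact absurd hij (h1 i j)
    · exact absurd hij (h2 i j)
    · exact absurd hij.symm (h1 j i)
    · exact congrArg _ (congrArg _ (hc.1 hij))
    · exact absurd hij (h3 i j)
    · exact absurd hij.symm (h2 j i)
    · exact absurd hij.symm (h3 j i)
    · exact congrArg _ (congrArg _ (he.1 hij))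
  · unfold π444; decide
  · unfold π444; decide
  · rintro (i | i | i) (j | j | j) hij
    · revert i j; unfold π444 E444; decide
    · exact hij.elim
    · exact hij.elim
    · exact hij.elim
    · revert i j; unfold π444 E444; decide
    · exact hij.elim
    · exact hij.elim
    · exact hij.elim
    · revert i j; unfold π444 E444; decide
  · have key : ∀ (x : Fin 4 → V), Cyc H S 4 x → ∀ i j, H.Adj (x i) (x j) → adj4 i j := by
      intro x hx i j hij
      obtain ⟨k, hk, hk2⟩ := hx.2.2.2 i (x j) (hx.2.1 j) hij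
      have := hx.1 hk
      subst this
      exact hk2
    have key2 : ∀ (x y : Fin 4 → V), Cyc H S 4 x → Cyc H S 4 y → (∀ i j, x i ≠ y j) →
        ∀ i j, ¬ H.Adj (x i) (y j) := by
      intro x y hx hy hxy i j hij
      obtain ⟨k, hk, hk2⟩ := hx.2.2.2 i (y j) (hy.2.1 j) hij
      exact hxy k j hk.symm
    rintro (i | i | i) (j | j | j) hij
    · exact key b hb i j hij
    · exact key2 b c hb hc h1 i j hij
    · exact key2 b e hb he h2 i j hij
    · exact key2 b c hb hc h1 j i hij.symm
    · exact key c hc i j hij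
    · exact key2 c e hc he h3 i j hij
    · exact key2 b e hb he h2 j i hij.symm
    · exact key2 c e hc he h3 j i hij.symm
    · exact key e he i j hij

end SY
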