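import Pool.Agent.Helper353.SY.Defs
import Pool.Agent.Helper353.SY.P_blk

set_option autoImplicit false

namespace SY



theorem b45 {V : Type} [DecidableEq V] (H : SimpleGraph V) (S : Finset V)
    (c : Fin 4 → V) (e : Fin 5 → V) (hc : Cyc H S 4 c) (he : Cyc H S 5 e)
    (hd : ∀ i j, c i ≠ e j) : Arr H (Finset.univ.image c ∪ Finset.univ.image e) 3 := by
  
  have himg : Finset.univ.image c ∪ Finset.univ.image e =
      Finset.univ.image (Sum.elim c e) := by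
    ext v
    simp only [Finset.mem_union, Finset.mem_image, Finset.mem_univ, true_and, Sum.exists,
      Sum.elim_inl, Sum.elim_inr]
  rw [himg]
  let π4 : Fin 4 → Fin 3 × ℕ := ![(0, 0), (1, 0), (2, 1), (1, 1)]
  let π5 : Fin 5 → Fin 3 × ℕ := ![(2, 0), (0, 1), (1, 2), (2, 2), (0, 2)]
  let E : Fin 4 ⊕ Fin 5 → Fin 4 ⊕ Fin 5 → Prop := fun x y =>
    match x, y with
    | Sum.inl i, Sum.inl j => (i.val + 1) % 4 = j.val ∨ (j.val + 1) % 4 = i.val
    | Sum.inr i, Sum.inr j => (i.val + 1) % 5 = j.val ∨ (j.val + 1) % 5 = i.val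
    | _, _ => False
  refine blk H (Sum.elim c e) E (Sum.elim π4 π5) 3 ?_ ?_ ?_ ?_ ?_
  · exact hc.1.sumElim he.1 hd
  · refine Function.Injective.sumElim ?_ ?_ ?_
    · show Function.Injective (![(0, 0), (1, 0), (2, 1), (1, 1)] : Fin 4 → Fin 3 × ℕ)
      decide
    · show Function.Injective (![(2, 0), (0, 1), (1, 2), (2, 2), (0, 2)] : Fin 5 → Fin 3 × ℕ)
      decide
    · show ∀ (a : Fin 4) (b : Fin 5), (![(0, 0), (1, 0), (2, 1), (1, 1)] : Fin 4 → Fin 3 × ℕ) a ≠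
        (![(2, 0), (0, 1), (1, 2), (2, 2), (0, 2)] : Fin 5 → Fin 3 × ℕ) b
      decide
  · rintro (i | i)
    · show ((![(0, 0), (1, 0), (2, 1), (1, 1)] : Fin 4 → Fin 3 × ℕ) i).2 < 3
      revert i; decide
    · show ((![(2, 0), (0, 1), (1, 2), (2, 2), (0, 2)] : Fin 5 → Fin 3 × ℕ) i).2 < 3
      revert i; decide
  · have h4 : ∀ i j : Fin 4, ((i.val + 1) % 4 = j.val ∨ (j.val + 1) % 4 = i.val) →
        OK ((![(0, 0), (1, 0), (2, 1), (1, 1)] : Fin 4 → Fin 3 × ℕ) i)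
          ((![(0, 0), (1, 0), (2, 1), (1, 1)] : Fin 4 → Fin 3 × ℕ) j) := by decide
    have h5 : ∀ i j : Fin 5, ((i.val + 1) % 5 = j.val ∨ (j.val + 1) % 5 = i.val) →
        OK ((![(2, 0), (0, 1), (1, 2), (2, 2), (0, 2)] : Fin 5 → Fin 3 × ℕ) i)
          ((![(2, 0), (0, 1), (1, 2), (2, 2), (0, 2)] : Fin 5 → Fin 3 × ℕ) j) := by decide
    rintro (i | i) (j | j) h
    · exact h4 i j h
    · exact absurd h id
    · exact absurd h id
    · exact h5 i j h
  · rintro (i | i) (j | j) h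
    · obtain ⟨j', hj', h'⟩ := hc.2.2.2 i (c j) (hc.2.1 j) h
      rw [← hc.1 hj'] at h'
      exact h'
    · obtain ⟨j', hj', -⟩ := hc.2.2.2 i (e j) (he.2.1 j) h
      exact absurd hj'.symm (hd j' j)
    · obtain ⟨j', hj', -⟩ := he.2.2.2 i (c j) (hc.2.1 j) h
      exact absurd hj' (hd j j')
    · obtain ⟨j', hj', h'⟩ := he.2.2.2 i (e j) (he.2.1 j) h
      rw [← he.1 hj'] at h'
      exact h'

end SY
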