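import Pool.Agent.Helper353.SY.Defs
import Pool.Agent.Helper353.SY.P_blk

set_option autoImplicit false

namespace SY



def E555 : Fin 5 ⊕ (Fin 5 ⊕ Fin 5) → Fin 5 ⊕ (Fin 5 ⊕ Fin 5) → Bool
  | Sum.inl i, Sum.inl j => decide ((i.val + 1) % 5 = j.val ∨ (j.val + 1) % 5 = i.val)
  | Sum.inr (Sum.inl i), Sum.inr (Sum.inl j) =>
      decide ((i.val + 1) % 5 = j.val ∨ (j.val + 1) % 5 = i.val)
  | Sum.inr (Sum.inr i), Sum.inr (Sum.inr j) =>
      decide ((i.val + 1) % 5 = j.val ∨ (j.val + 1) % 5 = i.val)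
  | _, _ => false

def pi555 : Fin 5 ⊕ (Fin 5 ⊕ Fin 5) → Fin 3 × ℕ :=
  Sum.elim ![(0,0),(1,0),(2,0),(0,1),(1,1)]
    (Sum.elim ![(2,1),(0,2),(1,2),(2,2),(0,3)] ![(1,3),(2,3),(0,4),(1,4),(2,4)])

theorem E555_ok : ∀ i j, E555 i j = true → OK (pi555 i) (pi555 j) := by decide

theorem pi555_lt : ∀ i, (pi555 i).2 < 5 := by decide

theorem pi555_inj : Function.Injective pi555 := by
  have : ∀ i j, pi555 i = pi555 j → i = j := by decide
  intro i j h; exact this i j h

theorem cyc_self {V : Type} (H : SimpleGraph V) (S : Finset V) (l : ℕ) (c : Fin l → V)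
    (hc : Cyc H S l c) (i j : Fin l) (h : H.Adj (c i) (c j)) :
    (i.val + 1) % l = j.val ∨ (j.val + 1) % l = i.val := by
  obtain ⟨hinj, hmem, _, hcl⟩ := hc
  obtain ⟨k, hk, hk2⟩ := hcl i (c j) (hmem j) h
  have := hinj hk
  subst this
  exact hk2

theorem cyc_cross {V : Type} (H : SimpleGraph V) (S : Finset V) (l m : ℕ) (c : Fin l → V)
    (d : Fin m → V) (hc : Cyc H S l c) (hd : Cyc H S m d) (hcd : ∀ i j, c i ≠ d j)
    (i : Fin l) (j : Fin m) (h : H.Adj (c i) (d j)) : False := by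
  obtain ⟨k, hk, _⟩ := hc.2.2.2 i (d j) (hd.2.1 j) h
  exact hcd k j hk.symm

theorem b555 {V : Type} [DecidableEq V] (H : SimpleGraph V) (S : Finset V)
    (b : Fin 5 → V) (c : Fin 5 → V) (e : Fin 5 → V) (hb : Cyc H S 5 b) (hc : Cyc H S 5 c)
    (he : Cyc H S 5 e) (h1 : ∀ i j, b i ≠ c j) (h2 : ∀ i j, b i ≠ e j) (h3 : ∀ i j, c i ≠ e j) :
    Arr H (Finset.univ.image b ∪ Finset.univ.image c ∪ Finset.univ.image e) 5 := by
  have key := blk H (Sum.elim b (Sum.elim c e)) (fun i j => E555 i j = true) pi555 5 ?_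
    pi555_inj pi555_lt E555_ok ?_
  · have heq : (Finset.univ.image (Sum.elim b (Sum.elim c e)) : Finset V) =
        Finset.univ.image b ∪ Finset.univ.image c ∪ Finset.univ.image e := by
      ext v
      simp only [Finset.mem_image, Finset.mem_univ, true_and, Finset.mem_union, Sum.exists,
        Sum.elim_inl, Sum.elim_inr]
      tauto
    rw [heq] at key
    exact key
  · intro i j hij
    rcases i with i | i | i <;> rcases j with j | j | j <;>
      simp only [Sum.elim_inl, Sum.elim_inr] at hij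
    · rw [hb.1 hij]
    · exact absurd hij (h1 i j)
    · exact absurd hij (h2 i j)
    · exact absurd hij.symm (h1 j i)
    · rw [hc.1 hij]
    · exact absurd hij (h3 i j)
    · exact absurd hij.symm (h2 j i)
    · exact absurd hij.symm (h3 j i)
    · rw [he.1 hij]
  · intro i j hij
    rcases i with i | i | i <;> rcases j with j | j | j <;>
      simp only [Sum.elim_inl, Sum.elim_inr] at hij
    · simpa [E555] using cyc_self H S 5 b hb i j hij
    · exact (cyc_cross H S 5 5 b c hb hc h1 i j hij).elim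
    · exact (cyc_cross H S 5 5 b e hb he h2 i j hij).elim
    · exact (cyc_cross H S 5 5 b c hb hc h1 j i hij.symm).elim
    · simpa [E555] using cyc_self H S 5 c hc i j hij
    · exact (cyc_cross H S 5 5 c e hc he h3 i j hij).elim
    · exact (cyc_cross H S 5 5 b e hb he h2 j i hij.symm).elim
    · exact (cyc_cross H S 5 5 c e hc he h3 j i hij.symm).elim
    · simpa [E555] using cyc_self H S 5 e he i j hij

end SY
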