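import Pool.Agent.Helper353.SY.Defs

set_option autoImplicit false

namespace SY



theorem stack {V : Type} [DecidableEq V] (H : SimpleGraph V) (S T : Finset V) (m k : ℕ)
    (hd : Disjoint S T) (hn : ∀ x ∈ S, ∀ y ∈ T, ¬ H.Adj x y)
    (hS : Arr H S m) (hT : Arr H T k) : Arr H (S ∪ T) (m + k) := by
  obtain ⟨f, hfi, hfl, hfo⟩ := hS
  obtain ⟨g, hgi, hgl, hgo⟩ := hT
  have hT' : ∀ x, x ∈ S ∪ T → x ∉ S → x ∈ T := by
    intro x hx hxS
    rcases Finset.mem_union.1 hx with h | h
    · exact absurd h hxS
    · exact h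
  refine ⟨fun v => if v ∈ S then f v else ((g v).1, m + (g v).2), ?_, ?_, ?_⟩
  · intro x hx y hy hxy
    have hx' : x ∈ S ∪ T := by simpa using hx
    have hy' : y ∈ S ∪ T := by simpa using hy
    simp only at hxy
    by_cases h1 : x ∈ S <;> by_cases h2 : y ∈ S
    · rw [if_pos h1, if_pos h2] at hxy
      exact hfi h1 h2 hxy
    · rw [if_pos h1, if_neg h2] at hxy
      have h3 := hfl x h1
      rw [hxy] at h3
      simp only at h3
      omega
    · rw [if_neg h1, if_pos h2] at hxy
      have h3 := hfl y h2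
      rw [← hxy] at h3
      simp only at h3
      omega
    · rw [if_neg h1, if_neg h2] at hxy
      have h3 := congrArg Prod.fst hxy
      have h4 := congrArg Prod.snd hxy
      simp only at h3 h4
      exact hgi (hT' x hx' h1) (hT' y hy' h2) (Prod.ext h3 (by omega))
  · intro v hv
    simp only
    by_cases h1 : v ∈ S
    · rw [if_pos h1]
      have := hfl v h1
      omega
    · rw [if_neg h1]
      have := hgl v (hT' v hv h1)
      simp only
      omega
  · intro x hx y hy hadj
    simp only
    by_cases h1 : x ∈ S <;> by_cases h2 : y ∈ S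
    · rw [if_pos h1, if_pos h2]
      exact hfo x h1 y h2 hadj
    · exact absurd hadj (hn x h1 y (hT' y hy h2))
    · exact absurd hadj.symm (hn y h2 x (hT' x hx h1))
    · rw [if_neg h1, if_neg h2]
      have h3 := hgo x (hT' x hx h1) y (hT' y hy h2) hadj
      unfold OK at h3 ⊢
      simp only
      rcases h3 with ⟨h4, h5⟩ | ⟨h4, h5⟩
      · exact Or.inl ⟨h4, by omega⟩
      · exact Or.inr ⟨h4, by omega⟩

end SY
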