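import Pool.Agent.Helper353.SY.Defs
import Pool.Agent.Helper353.SY.P_stack

set_option autoImplicit false

namespace SY



theorem blockstep {V : Type} [DecidableEq V] (S : Finset V) (H : SimpleGraph V) (m : ℕ)
    (hS : S.card = 3 * m) (hdeg : ∀ v ∈ S, dg H S v ≤ 2) (T : Finset V) (q : ℕ) (hq : 0 < q)
    (hT : T ⊆ S) (hTc : T.card = 3 * q) (hcl : ∀ a ∈ T, ∀ b ∈ S, H.Adj a b → b ∈ T)
    (hA : Arr H T q)
    (IH : ∀ k < m, ∀ (H' : SimpleGraph V) (S' : Finset V), S'.card = 3 * k →
      (∀ v ∈ S', dg H' S' v ≤ 2) → Arr H' S' k) : Arr H S m := by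
  have hle : T.card ≤ S.card := Finset.card_le_card hT
  have hqm : q ≤ m := by omega
  have hc : (S \ T).card = 3 * (m - q) := by
    rw [Finset.card_sdiff_of_subset hT, hS, hTc]
    omega
  have hA2 : Arr H (S \ T) (m - q) := by
    refine IH (m - q) (by omega) H (S \ T) hc ?_
    intro v hv
    refine le_trans ?_ (hdeg v (Finset.sdiff_subset hv))
    unfold dg
    classical
    exact Finset.card_le_card (Finset.filter_subset_filter _ Finset.sdiff_subset)
  have h := stack H T (S \ T) q (m - q) Finset.disjoint_sdiff (by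
    intro x hx y hy hxy
    exact (Finset.mem_sdiff.mp hy).2 (hcl x hx y (Finset.mem_sdiff.mp hy).1 hxy)) hA hA2
  rw [Finset.union_sdiff_of_subset hT] at h
  rw [show q + (m - q) = m by omega] at h
  exact h

end SY
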