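import Pool.Agent.Helper353.SY.Defs

set_option autoImplicit false

namespace SY



theorem cl_nb2 {V : Type} (S : Finset V) (H : SimpleGraph V) (u x y : V) (hd : dg H S u = 2)
    (hx : x ∈ S) (hy : y ∈ S) (hxy : x ≠ y) (h1 : H.Adj u x) (h2 : H.Adj u y) :
    ∀ w ∈ S, H.Adj u w → w = x ∨ w = y := by
  classical
  intro w hw huw
  by_contra hcon
  push Not at hcon
  obtain ⟨hwx, hwy⟩ := hcon
  unfold dg at hd
  have hsub : ({x, y, w} : Finset V) ⊆ S.filter (fun w => H.Adj u w) := by
    intro z hz
    simp only [Finset.mem_insert, Finset.mem_singleton] at hz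
    rw [Finset.mem_filter]
    rcases hz with rfl | rfl | rfl
    · exact ⟨hx, h1⟩
    · exact ⟨hy, h2⟩
    · exact ⟨hw, huw⟩
  have hc : ({x, y, w} : Finset V).card = 3 := by
    rw [Finset.card_eq_three]
    exact ⟨x, y, w, hxy, hwx.symm, hwy.symm, rfl⟩
  have h3 := Finset.card_le_card hsub
  have h4 : (S.filter (fun w => H.Adj u w)).card = 2 := by
    rw [← hd]
  omega

theorem cl_two {V : Type} (S : Finset V) (H : SimpleGraph V) (u : V) (hd : dg H S u = 2) :
    ∃ x y, x ∈ S ∧ y ∈ S ∧ x ≠ y ∧ H.Adj u x ∧ H.Adj u y := by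
  classical
  unfold dg at hd
  obtain ⟨x, y, hxy, h⟩ := Finset.card_eq_two.1 hd
  have hx : x ∈ S.filter (fun w => H.Adj u w) := by rw [h]; simp
  have hy : y ∈ S.filter (fun w => H.Adj u w) := by rw [h]; simp
  rw [Finset.mem_filter] at hx hy
  exact ⟨x, y, hx.1, hy.1, hxy, hx.2, hy.2⟩

theorem cl_other {V : Type} (S : Finset V) (H : SimpleGraph V) (u v : V) (hd : dg H S u = 2) :
    ∃ y, y ∈ S ∧ y ≠ v ∧ H.Adj u y := by
  obtain ⟨x, y, hx, hy, hxy, h1, h2⟩ := cl_two S H u hd
  by_cases h : x = v
  · exact ⟨y, hy, fun h' => hxy (h.trans h'.symm), h2⟩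
  · exact ⟨x, hx, h, h1⟩

theorem closed {V : Type} (S : Finset V) (H : SimpleGraph V) (P : V → Prop)
    (hP : ∀ a ∈ S, P a → dg H S a = 2) (hcl : ∀ a ∈ S, ∀ b ∈ S, P a → H.Adj a b → P b)
    (hnR : ¬ Red H S) (v : V) (hv : v ∈ S) (hPv : P v) :
    ∃ l : ℕ, (l = 3 ∨ l = 4 ∨ l = 5) ∧ ∃ c : Fin l → V, Cyc H S l c ∧ ∃ i, c i = v := by
  obtain ⟨a, b, ha, hb, hab, hva, hvb⟩ := cl_two S H v (hP v hv hPv)
  have hPa : P a := hcl v hv a ha hPv hva
  have hPb : P b := hcl v hv b hb hPv hvb
  have hnv := cl_nb2 S H v a b (hP v hv hPv) ha hb hab hva hvb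
  obtain ⟨a', ha', ha'v, haa'⟩ := cl_other S H a v (hP a ha hPa)
  obtain ⟨b', hb', hb'v, hbb'⟩ := cl_other S H b v (hP b hb hPb)
  have hna := cl_nb2 S H a v a' (hP a ha hPa) hv ha' ha'v.symm hva.symm haa'
  have hnb := cl_nb2 S H b v b' (hP b hb hPb) hv hb' hb'v.symm hvb.symm hbb'
  have e1 : v ≠ a := hva.ne
  have e2 : v ≠ b := hvb.ne
  have e3 : a ≠ a' := haa'.ne
  have e4 : b ≠ b' := hbb'.ne
  have e1' := e1.symm
  have e2' := e2.symm
  have e3' := e3.symm
  have e4' := e4.symm
  have hab' := hab.symm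
  have ha'v' := ha'v.symm
  have hb'v' := hb'v.symm
  by_cases h1 : a' = b
  · subst h1
    have hb'a : b' = a := by
      rcases hnb a ha haa'.symm with h | h
      · exact absurd h e1'
      · exact h.symm
    subst hb'a
    refine ⟨3, Or.inl rfl, ![v, b', a'], ⟨?_, ?_, ?_, ?_⟩, 0, rfl⟩
    · intro i j h
      fin_cases i <;> fin_cases j <;> first | rfl | (exfalso; simp at h; tauto)
    · intro i
      fin_cases i
      · exact hv
      · exact hb'
      · exact ha'
    · intro i j h hij
      fin_cases i <;> fin_cases j <;> simp at h hij ⊢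
      · exact hva
      · exact haa'
      · exact hvb.symm
    · intro i w hw h
      fin_cases i
      · rcases hnv w hw h with rfl | rfl
        · exact ⟨1, rfl, Or.inl rfl⟩
        · exact ⟨2, rfl, Or.inr rfl⟩
      · rcases hna w hw h with rfl | rfl
        · exact ⟨0, rfl, Or.inr rfl⟩
        · exact ⟨2, rfl, Or.inl rfl⟩
      · rcases hnb w hw h with rfl | rfl
        · exact ⟨0, rfl, Or.inl rfl⟩
        · exact ⟨1, rfl, Or.inr rfl⟩
  · have h2 : b' ≠ a := by
      intro h
      rw [h] at hbb'
      rcases hna b hb hbb'.symm with h' | h'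
      · exact e2' h'
      · exact h1 h'.symm
    have h1' : b ≠ a' := fun h => h1 h.symm
    have h2' : a ≠ b' := fun h => h2 h.symm
    have hPa' : P a' := hcl a ha a' ha' hPa haa'
    have hPb' : P b' := hcl b hb b' hb' hPb hbb'
    by_cases h3 : a' = b'
    · subst h3
      have hnw := cl_nb2 S H a' a b (hP a' ha' hPa') ha hb hab haa'.symm hbb'.symm
      refine ⟨4, Or.inr (Or.inl rfl), ![v, a, a', b], ⟨?_, ?_, ?_, ?_⟩, 0, rfl⟩
      · intro i j h
        fin_cases i <;> fin_cases j <;> first | rfl | (exfalso; simp at h; tauto)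
      · intro i
        fin_cases i
        · exact hv
        · exact ha
        · exact ha'
        · exact hb
      · intro i j h hij
        fin_cases i <;> fin_cases j <;> simp at h hij ⊢
        · exact hva
        · exact haa'
        · exact hbb'.symm
        · exact hvb.symm
      · intro i w hw h
        fin_cases i
        · rcases hnv w hw h with rfl | rfl
          · exact ⟨1, rfl, Or.inl rfl⟩
          · exact ⟨3, rfl, Or.inr rfl⟩
        · rcases hna w hw h with rfl | rfl
          · exact ⟨0, rfl, Or.inr rfl⟩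
          · exact ⟨2, rfl, Or.inl rfl⟩
        · rcases hnw w hw h with rfl | rfl
          · exact ⟨1, rfl, Or.inr rfl⟩
          · exact ⟨3, rfl, Or.inl rfl⟩
        · rcases hnb w hw h with rfl | rfl
          · exact ⟨0, rfl, Or.inl rfl⟩
          · exact ⟨2, rfl, Or.inr rfl⟩
    · have h3' : b' ≠ a' := fun h => h3 h.symm
      by_cases h4 : H.Adj a' b'
      · have hna' := cl_nb2 S H a' a b' (hP a' ha' hPa') ha hb' h2' haa'.symm h4
        have hnb' := cl_nb2 S H b' a' b (hP b' hb' hPb') ha' hb h1 h4.symm hbb'.symm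
        refine ⟨5, Or.inr (Or.inr rfl), ![v, a, a', b', b], ⟨?_, ?_, ?_, ?_⟩, 0, rfl⟩
        · intro i j h
          fin_cases i <;> fin_cases j <;> first | rfl | (exfalso; simp at h; tauto)
        · intro i
          fin_cases i
          · exact hv
          · exact ha
          · exact ha'
          · exact hb'
          · exact hb
        · intro i j h hij
          fin_cases i <;> fin_cases j <;> simp at h hij ⊢
          · exact hva
          · exact haa'
          · exact h4
          · exact hbb'.symm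
          · exact hvb.symm
        · intro i w hw h
          fin_cases i
          · rcases hnv w hw h with rfl | rfl
            · exact ⟨1, rfl, Or.inl rfl⟩
            · exact ⟨4, rfl, Or.inr rfl⟩
          · rcases hna w hw h with rfl | rfl
            · exact ⟨0, rfl, Or.inr rfl⟩
            · exact ⟨2, rfl, Or.inl rfl⟩
          · rcases hna' w hw h with rfl | rfl
            · exact ⟨1, rfl, Or.inr rfl⟩
            · exact ⟨3, rfl, Or.inl rfl⟩
          · rcases hnb' w hw h with rfl | rfl
            · exact ⟨2, rfl, Or.inr rfl⟩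
            · exact ⟨4, rfl, Or.inl rfl⟩
          · rcases hnb w hw h with rfl | rfl
            · exact ⟨0, rfl, Or.inl rfl⟩
            · exact ⟨3, rfl, Or.inr rfl⟩
      · exfalso
        apply hnR
        refine ⟨a', a, v, b, b', ha', ha, hv, hb, hb', ?_, haa'.symm, hbb', h4, ?_, hnv, hnb⟩
        · simp only [List.nodup_cons, List.mem_cons, List.not_mem_nil, or_false, not_or,
            not_false_eq_true, List.nodup_nil, and_true]
          exact ⟨⟨e3', ha'v, h1, h3⟩, ⟨e1', hab, h2'⟩, ⟨e2, hb'v'⟩, e4⟩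
        · intro w hw h
          exact (hna w hw h).symm

end SY
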