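import Pool.Agent.Helper353.SY.Defs

set_option autoImplicit false

namespace SY



theorem par {V : Type} (S : Finset V) (H : SimpleGraph V) (u : V) (hu : u ∈ S)
    (h1 : dg H S u = 1) (h2 : ∀ v ∈ S, v ≠ u → dg H S v = 2) : False := by
  classical
  let G : SimpleGraph {x // x ∈ S} := H.comap Subtype.val
  have hdeg : ∀ v : {x // x ∈ S}, G.degree v = dg H S v.1 := by
    intro v
    unfold dg
    rw [← SimpleGraph.card_neighborFinset_eq_degree]
    rw [← Finset.card_map (Function.Embedding.subtype (fun x => x ∈ S))]
    congr 1
    ext w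
    simp only [Finset.mem_map, SimpleGraph.mem_neighborFinset, Function.Embedding.coe_subtype,
      Finset.mem_filter, G, SimpleGraph.comap_adj]
    constructor
    · rintro ⟨a, ha, rfl⟩
      exact ⟨a.2, ha⟩
    · rintro ⟨ha, hb⟩
      exact ⟨⟨w, ha⟩, hb, rfl⟩
  have hev := G.even_card_odd_degree_vertices
  have hset : (Finset.univ.filter (fun v => Odd (G.degree v))) = {⟨u, hu⟩} := by
    ext v
    simp only [Finset.mem_filter, Finset.mem_univ, true_and, Finset.mem_singleton, hdeg]
    constructor
    · intro hodd
      by_contra hne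
      have : v.1 ≠ u := fun h => hne (Subtype.ext h)
      rw [h2 v.1 v.2 this] at hodd
      exact absurd hodd (by decide)
    · rintro rfl
      rw [h1]
      exact odd_one
  rw [hset] at hev
  simp at hev

end SY
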