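import Pool.Agent.Helper353.SY.Defs
import Pool.Agent.Helper353.SY.P_par

set_option autoImplicit false

namespace SY



theorem left_uniq {V : Type} (S : Finset V) (H : SimpleGraph V) (u w w' : V)
    (h : dg H S u ≤ 1) (hw : w ∈ S) (hw' : w' ∈ S) (h1 : H.Adj u w) (h2 : H.Adj u w') :
    w = w' := by
  classical
  unfold dg at h
  exact Finset.card_le_one.1 h w (Finset.mem_filter.2 ⟨hw, h1⟩) w'
    (Finset.mem_filter.2 ⟨hw', h2⟩)

theorem left_zero {V : Type} (S : Finset V) (H : SimpleGraph V) (u w : V)
    (h : dg H S u = 0) (hw : w ∈ S) : ¬ H.Adj u w := by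
  classical
  intro h1
  unfold dg at h
  rw [Finset.card_eq_zero] at h
  have : w ∈ S.filter (fun w => H.Adj u w) := Finset.mem_filter.2 ⟨hw, h1⟩
  rw [h] at this
  exact absurd this (Finset.notMem_empty w)

theorem left {V : Type} (S : Finset V) (H : SimpleGraph V) (hdeg : ∀ v ∈ S, dg H S v ≤ 2)
    (hmax : ∀ u ∈ S, ∀ v ∈ S, u ≠ v → ¬ H.Adj u v → dg H S u = 2 ∨ dg H S v = 2) :
    (∀ v ∈ S, dg H S v = 2) ∨
    (∃ c : Fin 1 → V, Cyc H S 1 c ∧ ∀ v ∈ S, (∀ i, c i ≠ v) → dg H S v = 2) ∨
    (∃ c : Fin 2 → V, Cyc H S 2 c ∧ ∀ v ∈ S, (∀ i, c i ≠ v) → dg H S v = 2) := by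
  by_cases hU : ∃ u ∈ S, dg H S u ≠ 2
  · obtain ⟨u, hu, hu2⟩ := hU
    have hu1 : dg H S u ≤ 1 := by
      have := hdeg u hu
      omega
    by_cases hU' : ∃ u' ∈ S, u' ≠ u ∧ dg H S u' ≠ 2
    · obtain ⟨u', hu', hne, hu2'⟩ := hU'
      have hu1' : dg H S u' ≤ 1 := by
        have := hdeg u' hu'
        omega
      have hadj : H.Adj u u' := by
        by_contra h
        rcases hmax u hu u' hu' hne.symm h with h1 | h1
        · exact hu2 h1
        · exact hu2' h1
      right; right
      refine ⟨![u, u'], ⟨?_, ?_, ?_, ?_⟩, ?_⟩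
      · intro i j hij
        fin_cases i <;> fin_cases j
        · rfl
        · exact absurd hij (fun h => hne (by simpa using h.symm))
        · exact absurd hij (fun h => hne (by simpa using h))
        · rfl
      · intro i
        fin_cases i
        · exact hu
        · exact hu'
      · intro i j hij hne'
        fin_cases i <;> fin_cases j
        · exact absurd rfl hne'
        · exact hadj
        · exact hadj.symm
        · exact absurd rfl hne'
      · intro i w hw hiw
        fin_cases i
        · refine ⟨1, ?_, Or.inl rfl⟩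
          exact left_uniq S H u w u' hu1 hw hu' hiw hadj
        · refine ⟨0, ?_, Or.inl rfl⟩
          exact left_uniq S H u' w u hu1' hw hu hiw hadj.symm
      · intro v hv hvc
        by_contra hv2
        have h0 : u ≠ v := hvc 0
        have h1 : u' ≠ v := hvc 1
        have hadj' : H.Adj u v := by
          by_contra h
          rcases hmax u hu v hv h0 h with h1 | h1
          · exact hu2 h1
          · exact hv2 h1
        exact h1 (left_uniq S H u u' v hu1 hu' hv hadj hadj')
    · have hall : ∀ v ∈ S, v ≠ u → dg H S v = 2 := by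
        intro v hv hne
        by_contra h
        exact hU' ⟨v, hv, hne, h⟩
      have h0 : dg H S u = 0 := by
        by_contra h
        exact par S H u hu (by omega) hall
      right; left
      refine ⟨fun _ => u, ⟨?_, ?_, ?_, ?_⟩, ?_⟩
      · intro i j _
        exact Subsingleton.elim i j
      · intro _; exact hu
      · intro i j _ hne
        exact absurd (Subsingleton.elim i j) hne
      · intro i w hw hiw
        exact absurd hiw (left_zero S H u w h0 hw)
      · intro v hv hvc
        exact hall v hv (hvc 0).symm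
  · left
    intro v hv
    by_contra h
    exact hU ⟨v, hv, h⟩

end SY
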