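import Pool.Agent.Helper353.SY.Defs

set_option autoImplicit false

namespace SY



theorem maxi {V : Type} [Fintype V] (S : Finset V) (H : SimpleGraph V)
    (hdeg : ∀ v ∈ S, dg H S v ≤ 2) :
    ∃ H' : SimpleGraph V, (∀ a b, H.Adj a b → H'.Adj a b) ∧ (∀ v ∈ S, dg H' S v ≤ 2) ∧
      ∀ u ∈ S, ∀ v ∈ S, u ≠ v → ¬ H'.Adj u v → dg H' S u = 2 ∨ dg H' S v = 2 := by
  classical
  have hfin : {K : SimpleGraph V | ∀ v ∈ S, dg K S v ≤ 2}.Finite := Set.toFinite _
  obtain ⟨K, hHK, hK⟩ := hfin.exists_le_maximal (a := H) hdeg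
  refine ⟨K, fun a b h => hHK h, hK.prop, ?_⟩
  intro u hu v hv huv hn
  by_contra hcon
  push Not at hcon
  obtain ⟨hu2, hv2⟩ := hcon
  have hKu : dg K S u ≤ 1 := by have := hK.prop u hu; omega
  have hKv : dg K S v ≤ 1 := by have := hK.prop v hv; omega
  have hadj : ∀ w x, (K ⊔ SimpleGraph.edge u v).Adj w x →
      K.Adj w x ∨ (w = u ∧ x = v) ∨ (w = v ∧ x = u) := by
    intro w x h
    rw [SimpleGraph.sup_adj, SimpleGraph.edge_adj] at h
    rcases h with h | ⟨h, _⟩
    · exact Or.inl h
    · rcases h with ⟨h1, h2⟩ | ⟨h1, h2⟩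
      · exact Or.inr (Or.inl ⟨by tauto, by tauto⟩)
      · exact Or.inr (Or.inr ⟨by tauto, by tauto⟩)
  have hdg : ∀ (G : SimpleGraph V) (w : V) (F : Finset V), (∀ x, x ∈ F ↔ x ∈ S ∧ G.Adj w x) →
      dg G S w = F.card := by
    intro G w F hF
    unfold dg
    congr 1
    ext x
    rw [Finset.mem_filter, hF]
  have hmem : (K ⊔ SimpleGraph.edge u v) ∈ {K : SimpleGraph V | ∀ v ∈ S, dg K S v ≤ 2} := by
    intro w hw
    by_cases hwu : w = u
    · subst hwu
      have : S.filter (fun x => (K ⊔ SimpleGraph.edge w v).Adj w x) ⊆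
          insert v (S.filter (fun x => K.Adj w x)) := by
        intro x hx
        simp only [Finset.mem_filter, Finset.mem_insert] at hx ⊢
        rcases hadj w x hx.2 with h | h | h
        · exact Or.inr ⟨hx.1, h⟩
        · exact Or.inl h.2
        · exact absurd h.1 huv
      have h1 := Finset.card_le_card this
      have h2 := Finset.card_insert_le v (S.filter (fun x => K.Adj w x))
      rw [hdg _ _ (S.filter (fun x => (K ⊔ SimpleGraph.edge w v).Adj w x)) (fun x => Finset.mem_filter)]
      rw [hdg _ _ (S.filter (fun x => K.Adj w x)) (fun x => Finset.mem_filter)] at hKu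
      omega
    · by_cases hwv : w = v
      · subst hwv
        have : S.filter (fun x => (K ⊔ SimpleGraph.edge u w).Adj w x) ⊆
            insert u (S.filter (fun x => K.Adj w x)) := by
          intro x hx
          simp only [Finset.mem_filter, Finset.mem_insert] at hx ⊢
          rcases hadj w x hx.2 with h | h | h
          · exact Or.inr ⟨hx.1, h⟩
          · exact absurd h.1 hwu
          · exact Or.inl h.2
        have h1 := Finset.card_le_card this
        have h2 := Finset.card_insert_le u (S.filter (fun x => K.Adj w x))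
        rw [hdg _ _ (S.filter (fun x => (K ⊔ SimpleGraph.edge u w).Adj w x)) (fun x => Finset.mem_filter)]
        rw [hdg _ _ (S.filter (fun x => K.Adj w x)) (fun x => Finset.mem_filter)] at hKv
        omega
      · have : S.filter (fun x => (K ⊔ SimpleGraph.edge u v).Adj w x) ⊆
            (S.filter (fun x => K.Adj w x)) := by
          intro x hx
          simp only [Finset.mem_filter] at hx ⊢
          rcases hadj w x hx.2 with h | h | h
          · exact ⟨hx.1, h⟩
          · exact absurd h.1 hwu
          · exact absurd h.1 hwv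
        have h1 := Finset.card_le_card this
        have h3 := hK.prop w hw
        rw [hdg _ _ (S.filter (fun x => (K ⊔ SimpleGraph.edge u v).Adj w x)) (fun x => Finset.mem_filter)]
        rw [hdg _ _ (S.filter (fun x => K.Adj w x)) (fun x => Finset.mem_filter)] at h3
        omega
  have hle : (K ⊔ SimpleGraph.edge u v) ≤ K := hK.le_of_ge hmem le_sup_left
  apply hn
  apply hle
  rw [SimpleGraph.sup_adj]
  right
  rw [SimpleGraph.edge_adj]
  exact ⟨Or.inl ⟨rfl, rfl⟩, huv⟩

end SY
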