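import Pool.Agent.Helper353.SY.Defs

set_option autoImplicit false

namespace SY



theorem disj {V : Type} (H : SimpleGraph V) (S : Finset V) (l k : ℕ) (c : Fin l → V)
    (e : Fin k → V) (hc : Cyc H S l c) (he : Cyc H S k e) (j0 : Fin k)
    (h : ∀ i, c i ≠ e j0) : ∀ i j, c i ≠ e j := by
  intro i j hij
  have hk : 0 < k := lt_of_le_of_lt (Nat.zero_le _) j0.2
  have key : ∀ t : ℕ, ∃ i' : Fin l, c i' = e ⟨(j.val + t) % k, Nat.mod_lt _ hk⟩ := by
    intro t
    induction t with
    | zero =>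
      refine ⟨i, ?_⟩
      rw [hij]
      congr 1
      apply Fin.ext
      show j.val = (j.val + 0) % k
      rw [add_zero, Nat.mod_eq_of_lt j.2]
    | succ t ih =>
      obtain ⟨i', hi'⟩ := ih
      by_cases hab : (⟨(j.val + t) % k, Nat.mod_lt _ hk⟩ : Fin k) =
          ⟨(j.val + (t + 1)) % k, Nat.mod_lt _ hk⟩
      · exact ⟨i', by rw [hi', hab]⟩
      · have hadj := he.2.2.1 ⟨(j.val + t) % k, Nat.mod_lt _ hk⟩
          ⟨(j.val + (t + 1)) % k, Nat.mod_lt _ hk⟩ (by
            show ((j.val + t) % k + 1) % k = (j.val + (t + 1)) % k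
            rw [← add_assoc, Nat.mod_add_mod]) hab
        rw [← hi'] at hadj
        obtain ⟨j', hj', -⟩ := hc.2.2.2 i' _ (he.2.1 _) hadj
        exact ⟨j', hj'.symm⟩
  obtain ⟨i', hi'⟩ := key (j0.val + k - j.val)
  apply h i'
  rw [hi']
  congr 1
  apply Fin.ext
  show (j.val + (j0.val + k - j.val)) % k = j0.val
  have e1 : j.val + (j0.val + k - j.val) = j0.val + k := by
    have := j.2
    omega
  rw [e1, Nat.add_mod_right, Nat.mod_eq_of_lt j0.2]

end SY
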