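import Pool.Agent.Helper353.SY.Defs

set_option autoImplicit false

namespace SY



theorem ex1 {V : Type} [DecidableEq V] (S : Finset V) (H : SimpleGraph V) (l : ℕ)
    (c : Fin l → V) (hc : Cyc H S l c) (h : S.card ≠ l) : ∃ v ∈ S, ∀ i, c i ≠ v := by
  by_contra hcon
  push Not at hcon
  apply h
  have h1 : S = Finset.univ.image c := by
    ext v
    constructor
    · intro hv
      obtain ⟨i, hi⟩ := hcon v hv
      exact Finset.mem_image.mpr ⟨i, Finset.mem_univ _, hi⟩
    · intro hv
      obtain ⟨i, _, rfl⟩ := Finset.mem_image.mp hv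
      exact hc.2.1 i
  rw [h1, Finset.card_image_of_injective _ hc.1, Finset.card_univ, Fintype.card_fin]

end SY
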