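import Pool.Agent.Helper353.SY.Defs

set_option autoImplicit false

namespace SY



theorem ex2 {V : Type} [DecidableEq V] (S : Finset V) (H : SimpleGraph V) (l k : ℕ)
    (c : Fin l → V) (e : Fin k → V) (hc : Cyc H S l c) (he : Cyc H S k e)
    (hd : ∀ i j, c i ≠ e j) (h : S.card ≠ l + k) :
    ∃ v ∈ S, (∀ i, c i ≠ v) ∧ ∀ j, e j ≠ v := by
  have hsub : (Finset.univ.image c) ∪ (Finset.univ.image e) ⊆ S := by
    intro v hv
    rw [Finset.mem_union, Finset.mem_image, Finset.mem_image] at hv
    rcases hv with ⟨i, -, rfl⟩ | ⟨j, -, rfl⟩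
    · exact hc.2.1 i
    · exact he.2.1 j
  have hdis : Disjoint (Finset.univ.image c) (Finset.univ.image e) := by
    rw [Finset.disjoint_left]
    intro v hv hv2
    rw [Finset.mem_image] at hv hv2
    obtain ⟨i, -, hi⟩ := hv
    obtain ⟨j, -, hj⟩ := hv2
    exact hd i j (hi.trans hj.symm)
  have hcard : ((Finset.univ.image c) ∪ (Finset.univ.image e)).card = l + k := by
    rw [Finset.card_union_of_disjoint hdis, Finset.card_image_of_injective _ hc.1,
      Finset.card_image_of_injective _ he.1]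
    simp
  have hne : (Finset.univ.image c) ∪ (Finset.univ.image e) ≠ S := by
    intro heq
    rw [heq] at hcard
    exact h hcard
  obtain ⟨v, hvS, hv⟩ := Finset.exists_of_ssubset (lt_of_le_of_ne hsub hne)
  rw [Finset.mem_union, not_or, Finset.mem_image, Finset.mem_image] at hv
  refine ⟨v, hvS, ?_, ?_⟩
  · intro i hi
    exact hv.1 ⟨i, Finset.mem_univ _, hi⟩
  · intro j hj
    exact hv.2 ⟨j, Finset.mem_univ _, hj⟩

end SY
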