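import Pool.Agent.Helper353.SY.Defs

set_option autoImplicit false

namespace SY



theorem out1 {V : Type} [DecidableEq V] (S : Finset V) (H : SimpleGraph V) (l q : ℕ)
    (c : Fin l → V) (hc : Cyc H S l c) (hq : 0 < q) (h : l = 3 * q)
    (hA : Arr H (Finset.univ.image c) q) : Out H S := by
  obtain ⟨hinj, hS, -, hcl⟩ := hc
  refine ⟨Finset.univ.image c, q, hq, ?_, ?_, ?_, hA⟩
  · intro x hx
    obtain ⟨i, -, rfl⟩ := Finset.mem_image.1 hx
    exact hS i
  · rw [Finset.card_image_of_injective _ hinj, Finset.card_univ, Fintype.card_fin, h]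
  · intro a ha b hb hab
    obtain ⟨i, -, rfl⟩ := Finset.mem_image.1 ha
    obtain ⟨j, hj, -⟩ := hcl i b hb hab
    rw [hj]
    exact Finset.mem_image_of_mem _ (Finset.mem_univ _)

end SY
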