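import Pool.Agent.Helper353.SY.Defs

set_option autoImplicit false

namespace SY



theorem out2 {V : Type} [DecidableEq V] (S : Finset V) (H : SimpleGraph V) (l k q : ℕ)
    (c : Fin l → V) (e : Fin k → V) (hc : Cyc H S l c) (he : Cyc H S k e)
    (hd : ∀ i j, c i ≠ e j) (hq : 0 < q) (h : l + k = 3 * q)
    (hA : Arr H (Finset.univ.image c ∪ Finset.univ.image e) q) : Out H S := by
  refine ⟨Finset.univ.image c ∪ Finset.univ.image e, q, hq, ?_, ?_, ?_, hA⟩
  · intro a ha
    rcases Finset.mem_union.1 ha with ha | ha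
    · obtain ⟨i, _, rfl⟩ := Finset.mem_image.1 ha
      exact hc.2.1 i
    · obtain ⟨i, _, rfl⟩ := Finset.mem_image.1 ha
      exact he.2.1 i
  · rw [Finset.card_union_of_disjoint, Finset.card_image_of_injective _ hc.1,
      Finset.card_image_of_injective _ he.1, Finset.card_univ, Finset.card_univ, Fintype.card_fin,
      Fintype.card_fin, h]
    rw [Finset.disjoint_left]
    intro a ha hb
    obtain ⟨i, _, rfl⟩ := Finset.mem_image.1 ha
    obtain ⟨j, _, hj⟩ := Finset.mem_image.1 hb
    exact hd i j hj.symm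
  · intro a ha b hb hab
    rcases Finset.mem_union.1 ha with ha | ha
    · obtain ⟨i, _, rfl⟩ := Finset.mem_image.1 ha
      obtain ⟨j, hj, _⟩ := hc.2.2.2 i b hb hab
      rw [hj]
      exact Finset.mem_union_left _ (Finset.mem_image_of_mem _ (Finset.mem_univ _))
    · obtain ⟨i, _, rfl⟩ := Finset.mem_image.1 ha
      obtain ⟨j, hj, _⟩ := he.2.2.2 i b hb hab
      rw [hj]
      exact Finset.mem_union_right _ (Finset.mem_image_of_mem _ (Finset.mem_univ _))

end SY
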