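import Pool.Agent.Helper353.SY.Defs

set_option autoImplicit false

namespace SY



theorem out3 {V : Type} [DecidableEq V] (S : Finset V) (H : SimpleGraph V) (n l k q : ℕ)
    (b : Fin n → V) (c : Fin l → V) (e : Fin k → V) (hb : Cyc H S n b) (hc : Cyc H S l c)
    (he : Cyc H S k e) (h1 : ∀ i j, b i ≠ c j) (h2 : ∀ i j, b i ≠ e j) (h3 : ∀ i j, c i ≠ e j)
    (hq : 0 < q) (h : n + l + k = 3 * q)
    (hA : Arr H (Finset.univ.image b ∪ Finset.univ.image c ∪ Finset.univ.image e) q) :
    Out H S := by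
  refine ⟨Finset.univ.image b ∪ Finset.univ.image c ∪ Finset.univ.image e, q, hq, ?_, ?_, ?_, hA⟩
  · intro v hv
    simp only [Finset.mem_union, Finset.mem_image, Finset.mem_univ, true_and] at hv
    rcases hv with (⟨i, rfl⟩ | ⟨i, rfl⟩) | ⟨i, rfl⟩
    · exact hb.2.1 i
    · exact hc.2.1 i
    · exact he.2.1 i
  · have d1 : Disjoint (Finset.univ.image b) (Finset.univ.image c) := by
      rw [Finset.disjoint_left]
      intro v hv hv'
      simp only [Finset.mem_image, Finset.mem_univ, true_and] at hv hv'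
      obtain ⟨i, rfl⟩ := hv
      obtain ⟨j, hj⟩ := hv'
      exact h1 i j hj.symm
    have d2 : Disjoint (Finset.univ.image b ∪ Finset.univ.image c) (Finset.univ.image e) := by
      rw [Finset.disjoint_left]
      intro v hv hv'
      simp only [Finset.mem_union, Finset.mem_image, Finset.mem_univ, true_and] at hv hv'
      obtain ⟨j, hj⟩ := hv'
      rcases hv with ⟨i, rfl⟩ | ⟨i, rfl⟩
      · exact h2 i j hj.symm
      · exact h3 i j hj.symm
    rw [Finset.card_union_of_disjoint d2, Finset.card_union_of_disjoint d1,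
      Finset.card_image_of_injective _ hb.1, Finset.card_image_of_injective _ hc.1,
      Finset.card_image_of_injective _ he.1, Finset.card_univ, Finset.card_univ, Finset.card_univ,
      Fintype.card_fin, Fintype.card_fin, Fintype.card_fin, h]
  · intro a ha w hw haw
    simp only [Finset.mem_union, Finset.mem_image, Finset.mem_univ, true_and] at ha ⊢
    rcases ha with (⟨i, rfl⟩ | ⟨i, rfl⟩) | ⟨i, rfl⟩
    · obtain ⟨j, rfl, -⟩ := hb.2.2.2 i w hw haw
      exact Or.inl (Or.inl ⟨j, rfl⟩)
    · obtain ⟨j, rfl, -⟩ := hc.2.2.2 i w hw haw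
      exact Or.inl (Or.inr ⟨j, rfl⟩)
    · obtain ⟨j, rfl, -⟩ := he.2.2.2 i w hw haw
      exact Or.inr ⟨j, rfl⟩

end SY
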