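import Pool.Agent.Helper353.SY.Defs
import Pool.Agent.Helper353.SY.P_b3
import Pool.Agent.Helper353.SY.P_b45
import Pool.Agent.Helper353.SY.P_b444
import Pool.Agent.Helper353.SY.P_b555
import Pool.Agent.Helper353.SY.P_disj
import Pool.Agent.Helper353.SY.P_closed
import Pool.Agent.Helper353.SY.P_out1
import Pool.Agent.Helper353.SY.P_out2
import Pool.Agent.Helper353.SY.P_out3
import Pool.Agent.Helper353.SY.P_ex1
import Pool.Agent.Helper353.SY.P_ex2

set_option autoImplicit false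

namespace SY



theorem nr0 {V : Type} [DecidableEq V] (S : Finset V) (H : SimpleGraph V) (m : ℕ)
    (hS : S.card = 3 * m) (hm : 0 < m) (hnR : ¬ Red H S) (h2 : ∀ v ∈ S, dg H S v = 2) :
    Out H S := by
  by_contra hO
  have G : ∀ v ∈ S, (∃ c : Fin 4 → V, Cyc H S 4 c ∧ ∃ i, c i = v) ∨
      (∃ c : Fin 5 → V, Cyc H S 5 c ∧ ∃ i, c i = v) := by
    intro v hv
    obtain ⟨l, hl, c, hc, i, hi⟩ := closed S H (fun _ => True) (fun a ha _ => h2 a ha)
      (fun _ _ _ _ _ _ => trivial) hnR v hv trivial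
    rcases hl with rfl | rfl | rfl
    · exact absurd (out1 S H 3 1 c hc one_pos rfl (b3 H S c hc)) hO
    · exact Or.inl ⟨c, hc, i, hi⟩
    · exact Or.inr ⟨c, hc, i, hi⟩
  have H45 : ∀ (c : Fin 4 → V) (e : Fin 5 → V), Cyc H S 4 c → Cyc H S 5 e →
      (∀ i j, c i ≠ e j) → False := by
    intro c e hc he hd
    exact hO (out2 S H 4 5 3 c e hc he hd (by norm_num) rfl (b45 H S c e hc he hd))
  obtain ⟨v1, hv1⟩ : S.Nonempty := by
    rw [← Finset.card_pos]
    omega
  rcases G v1 hv1 with ⟨c, hc, -⟩ | ⟨c, hc, -⟩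
  · obtain ⟨v2, hv2, hcv2⟩ := ex1 S H 4 c hc (by omega)
    rcases G v2 hv2 with ⟨e, he, j0, hj0⟩ | ⟨e, he, j0, hj0⟩
    · have hce := disj H S 4 4 c e hc he j0 (fun i => by rw [hj0]; exact hcv2 i)
      obtain ⟨v3, hv3, hcv3, hev3⟩ := ex2 S H 4 4 c e hc he hce (by omega)
      rcases G v3 hv3 with ⟨f, hf, k0, hk0⟩ | ⟨f, hf, k0, hk0⟩
      · have hcf := disj H S 4 4 c f hc hf k0 (fun i => by rw [hk0]; exact hcv3 i)
        have hef := disj H S 4 4 e f he hf k0 (fun i => by rw [hk0]; exact hev3 i)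
        exact hO (out3 S H 4 4 4 4 c e f hc he hf hce hcf hef (by norm_num) rfl
          (b444 H S c e f hc he hf hce hcf hef))
      · have hcf := disj H S 4 5 c f hc hf k0 (fun i => by rw [hk0]; exact hcv3 i)
        exact H45 c f hc hf hcf
    · have hce := disj H S 4 5 c e hc he j0 (fun i => by rw [hj0]; exact hcv2 i)
      exact H45 c e hc he hce
  · obtain ⟨v2, hv2, hcv2⟩ := ex1 S H 5 c hc (by omega)
    rcases G v2 hv2 with ⟨e, he, j0, hj0⟩ | ⟨e, he, j0, hj0⟩
    · have hce := disj H S 5 4 c e hc he j0 (fun i => by rw [hj0]; exact hcv2 i)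
      exact H45 e c he hc (fun i j => (hce j i).symm)
    · have hce := disj H S 5 5 c e hc he j0 (fun i => by rw [hj0]; exact hcv2 i)
      obtain ⟨v3, hv3, hcv3, hev3⟩ := ex2 S H 5 5 c e hc he hce (by omega)
      rcases G v3 hv3 with ⟨f, hf, k0, hk0⟩ | ⟨f, hf, k0, hk0⟩
      · have hcf := disj H S 5 4 c f hc hf k0 (fun i => by rw [hk0]; exact hcv3 i)
        exact H45 f c hf hc (fun i j => (hcf j i).symm)
      · have hcf := disj H S 5 5 c f hc hf k0 (fun i => by rw [hk0]; exact hcv3 i)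
        have hef := disj H S 5 5 e f he hf k0 (fun i => by rw [hk0]; exact hev3 i)
        exact hO (out3 S H 5 5 5 5 c e f hc he hf hce hcf hef (by norm_num) rfl
          (b555 H S c e f hc he hf hce hcf hef))

end SY
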