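import Pool.Agent.Helper353.SY.Defs
import Pool.Agent.Helper353.SY.P_b3
import Pool.Agent.Helper353.SY.P_b15
import Pool.Agent.Helper353.SY.P_b144
import Pool.Agent.Helper353.SY.P_disj
import Pool.Agent.Helper353.SY.P_closed
import Pool.Agent.Helper353.SY.P_out1
import Pool.Agent.Helper353.SY.P_out2
import Pool.Agent.Helper353.SY.P_out3
import Pool.Agent.Helper353.SY.P_ex1
import Pool.Agent.Helper353.SY.P_ex2

set_option autoImplicit false

namespace SY



theorem nr1 {V : Type} [DecidableEq V] (S : Finset V) (H : SimpleGraph V) (m : ℕ)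
    (hS : S.card = 3 * m) (hm : 0 < m) (hnR : ¬ Red H S) (c : Fin 1 → V) (hc : Cyc H S 1 c)
    (h2 : ∀ v ∈ S, (∀ i, c i ≠ v) → dg H S v = 2) :
    Out H S := by
  have hcl : ∀ a ∈ S, ∀ b ∈ S, (∀ i, c i ≠ a) → H.Adj a b → (∀ i, c i ≠ b) := by
    intro a ha b _ hPa hab i hib
    have h3 : H.Adj (c i) a := by rw [hib]; exact hab.symm
    obtain ⟨j, hj, -⟩ := hc.2.2.2 i a ha h3
    exact hPa j hj.symm
  obtain ⟨v, hv, hPv⟩ := ex1 S H 1 c hc (by omega)
  obtain ⟨l, hl, e, he, i0, hi0⟩ :=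
    closed S H (fun v => ∀ i, c i ≠ v) h2 hcl hnR v hv hPv
  have hce : ∀ i j, c i ≠ e j := disj H S 1 l c e hc he i0 (fun i => by rw [hi0]; exact hPv i)
  rcases hl with rfl | rfl | rfl
  · exact out1 S H 3 1 e he one_pos rfl (b3 H S e he)
  · obtain ⟨w, hw, hcw, hew⟩ := ex2 S H 1 4 c e hc he hce (by omega)
    obtain ⟨l', hl', f, hf, i1, hi1⟩ :=
      closed S H (fun v => ∀ i, c i ≠ v) h2 hcl hnR w hw hcw
    have hcf : ∀ i j, c i ≠ f j :=
      disj H S 1 l' c f hc hf i1 (fun i => by rw [hi1]; exact hcw i)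
    have hef : ∀ i j, e i ≠ f j :=
      disj H S 4 l' e f he hf i1 (fun i => by rw [hi1]; exact hew i)
    rcases hl' with rfl | rfl | rfl
    · exact out1 S H 3 1 f hf one_pos rfl (b3 H S f hf)
    · exact out3 S H 1 4 4 3 c e f hc he hf hce hcf hef (by norm_num) rfl
        (b144 H S c e f hc he hf hce hcf hef)
    · exact out2 S H 1 5 2 c f hc hf hcf (by norm_num) rfl (b15 H S c f hc hf hcf)
  · exact out2 S H 1 5 2 c e hc he hce (by norm_num) rfl (b15 H S c e hc he hce)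

end SY
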