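import Pool.Agent.Helper353.SY.Defs
import Pool.Agent.Helper353.SY.P_b3
import Pool.Agent.Helper353.SY.P_b24
import Pool.Agent.Helper353.SY.P_b255
import Pool.Agent.Helper353.SY.P_disj
import Pool.Agent.Helper353.SY.P_closed
import Pool.Agent.Helper353.SY.P_out1
import Pool.Agent.Helper353.SY.P_out2
import Pool.Agent.Helper353.SY.P_out3
import Pool.Agent.Helper353.SY.P_ex1
import Pool.Agent.Helper353.SY.P_ex2

set_option autoImplicit false

namespace SY



theorem nr2_cl {V : Type} (S : Finset V) (H : SimpleGraph V) (l : ℕ) (c : Fin l → V)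
    (hc : Cyc H S l c) (a : V) (ha : a ∈ S) (b : V) (hca : ∀ i, c i ≠ a) (hab : H.Adj a b) :
    ∀ i, c i ≠ b := by
  intro i hib
  obtain ⟨j, hj, _⟩ := hc.2.2.2 i a ha (by rw [hib]; exact hab.symm)
  exact hca j hj.symm

theorem nr2 {V : Type} [DecidableEq V] (S : Finset V) (H : SimpleGraph V) (m : ℕ)
    (hS : S.card = 3 * m) (hm : 0 < m) (hnR : ¬ Red H S) (c : Fin 2 → V) (hc : Cyc H S 2 c)
    (h2 : ∀ v ∈ S, (∀ i, c i ≠ v) → dg H S v = 2) :
    Out H S := by
  obtain ⟨v, hvS, hvc⟩ := ex1 S H 2 c hc (by omega)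
  obtain ⟨l, hl, e, he, i0, hi0⟩ := closed S H (fun u => ∀ i, c i ≠ u) h2
    (fun a ha b _ hPa hab => nr2_cl S H 2 c hc a ha b hPa hab) hnR v hvS hvc
  have hd : ∀ i j, c i ≠ e j := disj H S 2 l c e hc he i0 (by rw [hi0]; exact hvc)
  rcases hl with rfl | rfl | rfl
  · exact out1 S H 3 1 e he (by norm_num) (by norm_num) (b3 H S e he)
  · exact out2 S H 2 4 2 c e hc he hd (by norm_num) (by norm_num) (b24 H S c e hc he hd)
  · obtain ⟨v', hvS', hvc', hve'⟩ := ex2 S H 2 5 c e hc he hd (by omega)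
    obtain ⟨l', hl', f, hf, i1, hi1⟩ := closed S H (fun u => (∀ i, c i ≠ u) ∧ ∀ j, e j ≠ u)
      (fun a ha hPa => h2 a ha hPa.1)
      (fun a ha b _ hPa hab => ⟨nr2_cl S H 2 c hc a ha b hPa.1 hab,
        nr2_cl S H 5 e he a ha b hPa.2 hab⟩) hnR v' hvS' ⟨hvc', hve'⟩
    have hdc : ∀ i j, c i ≠ f j := disj H S 2 l' c f hc hf i1 (by rw [hi1]; exact hvc')
    have hde : ∀ i j, e i ≠ f j := disj H S 5 l' e f he hf i1 (by rw [hi1]; exact hve')
    rcases hl' with rfl | rfl | rfl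
    · exact out1 S H 3 1 f hf (by norm_num) (by norm_num) (b3 H S f hf)
    · exact out2 S H 2 4 2 c f hc hf hdc (by norm_num) (by norm_num) (b24 H S c f hc hf hdc)
    · exact out3 S H 2 5 5 4 c e f hc he hf hd hdc hde (by norm_num) (by norm_num)
        (b255 H S c e f hc he hf hd hdc hde)

end SY
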