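import Pool.Agent.Helper353.SY.Defs

set_option autoImplicit false

namespace SY



theorem ins_OK_symm {p q : Fin 3 × ℕ} (h : OK p q) : OK q p := by
  rcases h with h | h
  · exact Or.inr h
  · exact Or.inl h

def ins_s (a l : ℕ) : ℕ := if l ≤ a then l else l + 1

theorem ins_s_ne (a l : ℕ) : ins_s a l ≠ a + 1 := by
  unfold ins_s; split_ifs <;> omega

theorem ins_s_inj (a l l' : ℕ) (h : ins_s a l = ins_s a l') : l = l' := by
  unfold ins_s at h; split_ifs at h <;> omega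

theorem ins_s_mono (a l l' : ℕ) (h : l ≤ l') : ins_s a l ≤ ins_s a l' := by
  unfold ins_s; split_ifs <;> omega

theorem ins_s_lt (a l m : ℕ) (h : l < m) : ins_s a l < m + 1 := by
  unfold ins_s; split_ifs <;> omega

theorem ins_aux {V : Type} [DecidableEq V] (H : SimpleGraph V) (S : Finset V) (m : ℕ)
    (x v1 v2 v3 y : V)
    (hnd : [x, v1, v2, v3, y].Nodup)
    (n1 : ∀ w ∈ S, H.Adj v1 w → w = x ∨ w = v2)
    (n2 : ∀ w ∈ S, H.Adj v2 w → w = v1 ∨ w = v3)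
    (n3 : ∀ w ∈ S, H.Adj v3 w → w = v2 ∨ w = y)
    (φ : V → Fin 3 × ℕ)
    (hinj : ∀ u ∈ S, ∀ w ∈ S, u ≠ v1 → u ≠ v2 → u ≠ v3 → w ≠ v1 → w ≠ v2 → w ≠ v3 →
      φ u = φ w → u = w)
    (hlt : ∀ u ∈ S, u ≠ v1 → u ≠ v2 → u ≠ v3 → (φ u).2 < m)
    (hok : ∀ u ∈ S, ∀ w ∈ S, u ≠ v1 → u ≠ v2 → u ≠ v3 → w ≠ v1 → w ≠ v2 → w ≠ v3 →
      H.Adj u w → OK (φ u) (φ w))
    (a : ℕ) (ha : a < m) (c1 c2 c3 : Fin 3) (h12 : c1 ≠ c2) (h13 : c1 ≠ c3) (h23 : c2 ≠ c3)
    (o1 : OK ((φ x).1, ins_s a (φ x).2) (c1, a + 1)) (o2 : OK (c1, a + 1) (c2, a + 1))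
    (o3 : OK (c2, a + 1) (c3, a + 1)) (o4 : OK (c3, a + 1) ((φ y).1, ins_s a (φ y).2)) :
    Arr H S (m + 1) := by
  simp only [List.nodup_cons, List.mem_cons, List.not_mem_nil, or_false, not_or,
    not_false_eq_true, List.nodup_nil, and_true] at hnd
  obtain ⟨⟨e1, e2, e3, e4⟩, ⟨e5, e6, e7⟩, ⟨e8, e9⟩, e10⟩ := hnd
  let Φ : V → Fin 3 × ℕ := fun w => if w = v1 then (c1, a + 1) else if w = v2 then (c2, a + 1)
    else if w = v3 then (c3, a + 1) else ((φ w).1, ins_s a (φ w).2)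
  have P1 : Φ v1 = (c1, a + 1) := by simp [Φ]
  have P2 : Φ v2 = (c2, a + 1) := by simp [Φ, Ne.symm e5]
  have P3 : Φ v3 = (c3, a + 1) := by simp [Φ, Ne.symm e6, Ne.symm e8]
  have P0 : ∀ w, w ≠ v1 → w ≠ v2 → w ≠ v3 → Φ w = ((φ w).1, ins_s a (φ w).2) := by
    intro w hw1 hw2 hw3
    simp [Φ, hw1, hw2, hw3]
  have Px : Φ x = ((φ x).1, ins_s a (φ x).2) := P0 x e1 e2 e3
  have Py : Φ y = ((φ y).1, ins_s a (φ y).2) := P0 y (Ne.symm e7) (Ne.symm e9) (Ne.symm e10)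
  have hs1 : ∀ w, H.Adj v1 w → w ∈ S → OK (Φ v1) (Φ w) := by
    intro w hw hwS
    rcases n1 w hwS hw with rfl | rfl
    · rw [P1, Px]; exact ins_OK_symm o1
    · rw [P1, P2]; exact o2
  have hs2 : ∀ w, H.Adj v2 w → w ∈ S → OK (Φ v2) (Φ w) := by
    intro w hw hwS
    rcases n2 w hwS hw with rfl | rfl
    · rw [P1, P2]; exact ins_OK_symm o2
    · rw [P2, P3]; exact o3
  have hs3 : ∀ w, H.Adj v3 w → w ∈ S → OK (Φ v3) (Φ w) := by
    intro w hw hwS
    rcases n3 w hwS hw with rfl | rfl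
    · rw [P2, P3]; exact ins_OK_symm o3
    · rw [P3, Py]; exact o4
  refine ⟨Φ, ?_, ?_, ?_⟩
  · intro u hu w hw huw
    rw [Finset.mem_coe] at hu hw
    by_cases u1 : u = v1
    · subst u1
      by_cases w1 : w = u
      · exact w1.symm
      by_cases w2 : w = v2
      · subst w2; rw [P1, P2] at huw; exact absurd (congrArg Prod.fst huw) h12
      by_cases w3 : w = v3
      · subst w3; rw [P1, P3] at huw; exact absurd (congrArg Prod.fst huw) h13
      rw [P1, P0 w w1 w2 w3] at huw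
      exact absurd (congrArg Prod.snd huw).symm (ins_s_ne a _)
    by_cases u2 : u = v2
    · subst u2
      by_cases w1 : w = v1
      · subst w1; rw [P1, P2] at huw; exact absurd (congrArg Prod.fst huw).symm h12
      by_cases w2 : w = u
      · exact w2.symm
      by_cases w3 : w = v3
      · subst w3; rw [P2, P3] at huw; exact absurd (congrArg Prod.fst huw) h23
      rw [P2, P0 w w1 w2 w3] at huw
      exact absurd (congrArg Prod.snd huw).symm (ins_s_ne a _)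
    by_cases u3 : u = v3
    · subst u3
      by_cases w1 : w = v1
      · subst w1; rw [P1, P3] at huw; exact absurd (congrArg Prod.fst huw).symm h13
      by_cases w2 : w = v2
      · subst w2; rw [P2, P3] at huw; exact absurd (congrArg Prod.fst huw).symm h23
      by_cases w3 : w = u
      · exact w3.symm
      rw [P3, P0 w w1 w2 w3] at huw
      exact absurd (congrArg Prod.snd huw).symm (ins_s_ne a _)
    by_cases w1 : w = v1
    · subst w1; rw [P1, P0 u u1 u2 u3] at huw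
      exact absurd (congrArg Prod.snd huw) (ins_s_ne a _)
    by_cases w2 : w = v2
    · subst w2; rw [P2, P0 u u1 u2 u3] at huw
      exact absurd (congrArg Prod.snd huw) (ins_s_ne a _)
    by_cases w3 : w = v3
    · subst w3; rw [P3, P0 u u1 u2 u3] at huw
      exact absurd (congrArg Prod.snd huw) (ins_s_ne a _)
    rw [P0 u u1 u2 u3, P0 w w1 w2 w3] at huw
    have hfst : (φ u).1 = (φ w).1 := (Prod.mk.inj huw).1
    have hsnd : ins_s a (φ u).2 = ins_s a (φ w).2 := (Prod.mk.inj huw).2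
    exact hinj u hu w hw u1 u2 u3 w1 w2 w3 (Prod.ext hfst (ins_s_inj a _ _ hsnd))
  · intro v hv
    by_cases u1 : v = v1
    · subst u1; rw [P1]; simp only; omega
    by_cases u2 : v = v2
    · subst u2; rw [P2]; simp only; omega
    by_cases u3 : v = v3
    · subst u3; rw [P3]; simp only; omega
    rw [P0 v u1 u2 u3]
    exact ins_s_lt a _ m (hlt v hv u1 u2 u3)
  · intro u hu w hw huw
    by_cases u1 : u = v1
    · subst u1; exact hs1 w huw hw
    by_cases u2 : u = v2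
    · subst u2; exact hs2 w huw hw
    by_cases u3 : u = v3
    · subst u3; exact hs3 w huw hw
    by_cases w1 : w = v1
    · subst w1; exact ins_OK_symm (hs1 u huw.symm hu)
    by_cases w2 : w = v2
    · subst w2; exact ins_OK_symm (hs2 u huw.symm hu)
    by_cases w3 : w = v3
    · subst w3; exact ins_OK_symm (hs3 u huw.symm hu)
    rw [P0 u u1 u2 u3, P0 w w1 w2 w3]
    rcases hok u hu w hw u1 u2 u3 w1 w2 w3 huw with h | h
    · exact Or.inl ⟨h.1, ins_s_mono a _ _ h.2⟩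
    · exact Or.inr ⟨h.1, ins_s_mono a _ _ h.2⟩

theorem ins {V : Type} [DecidableEq V] (H H' : SimpleGraph V) (S : Finset V) (m : ℕ)
    (x v1 v2 v3 y : V) (hx : x ∈ S) (h1 : v1 ∈ S) (h2 : v2 ∈ S) (h3 : v3 ∈ S) (hy : y ∈ S)
    (hnd : [x, v1, v2, v3, y].Nodup)
    (n1 : ∀ w ∈ S, H.Adj v1 w → w = x ∨ w = v2)
    (n2 : ∀ w ∈ S, H.Adj v2 w → w = v1 ∨ w = v3)
    (n3 : ∀ w ∈ S, H.Adj v3 w → w = v2 ∨ w = y)
    (hH : ∀ a b, H.Adj a b → H'.Adj a b) (hxy : H'.Adj x y)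
    (hA : Arr H' (S \ {v1, v2, v3}) m) : Arr H S (m + 1) := by
  obtain ⟨φ, hinj, hlt, hok⟩ := hA
  have hmem : ∀ u, u ∈ S → u ≠ v1 → u ≠ v2 → u ≠ v3 → u ∈ S \ {v1, v2, v3} := by
    intro u hu a b c
    simp [hu, a, b, c]
  have hnd' := hnd
  simp only [List.nodup_cons, List.mem_cons, List.not_mem_nil, or_false, not_or,
    not_false_eq_true, List.nodup_nil, and_true] at hnd'
  obtain ⟨⟨e1, e2, e3, e4⟩, ⟨e5, e6, e7⟩, ⟨e8, e9⟩, e10⟩ := hnd'
  have hx' := hmem x hx e1 e2 e3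
  have hy' := hmem y hy (Ne.symm e7) (Ne.symm e9) (Ne.symm e10)
  have key := ins_aux H S m x v1 v2 v3 y hnd n1 n2 n3 φ
    (fun u hu w hw a b c a' b' c' h => hinj (Finset.mem_coe.2 (hmem u hu a b c))
      (Finset.mem_coe.2 (hmem w hw a' b' c')) h)
    (fun u hu a b c => hlt u (hmem u hu a b c))
    (fun u hu w hw a b c a' b' c' h => hok u (hmem u hu a b c) w (hmem w hw a' b' c') (hH _ _ h))
  have f1 : ∀ i : Fin 3, i + 1 ≠ i + 2 ∧ i + 1 ≠ i ∧ i + 2 ≠ i ∧ i + 2 = i + 1 + 1 ∧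
      i = i + 2 + 1 := by decide
  rcases hok x hx' y hy' hxy with ⟨h1', h2'⟩ | ⟨h1', h2'⟩
  · obtain ⟨g1, g2, g3, g4, g5⟩ := f1 (φ x).1
    have sx : ins_s (φ x).2 (φ x).2 = (φ x).2 := by simp [ins_s]
    rcases h2'.lt_or_eq with hlt' | heq
    · have sy : ins_s (φ x).2 (φ y).2 = (φ y).2 + 1 := by
        unfold ins_s; rw [if_neg (by omega)]
      refine key (φ x).2 (hlt x hx') ((φ x).1 + 1) ((φ x).1 + 2) (φ x).1 g1 g2 g3 ?_ ?_ ?_ ?_
      · rw [sx]; exact Or.inl ⟨rfl, by simp⟩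
      · exact Or.inl ⟨g4, le_rfl⟩
      · exact Or.inl ⟨g5, le_rfl⟩
      · rw [sy]; exact Or.inl ⟨h1', by simp only; omega⟩
    · have sy : ins_s (φ x).2 (φ y).2 = (φ x).2 := by
        unfold ins_s; rw [if_pos (by omega), heq]
      refine key (φ x).2 (hlt x hx') ((φ x).1 + 1) (φ x).1 ((φ x).1 + 2) g2 g1 (Ne.symm g3)
        ?_ ?_ ?_ ?_
      · rw [sx]; exact Or.inl ⟨rfl, by simp⟩
      · exact Or.inr ⟨rfl, le_rfl⟩
      · exact Or.inr ⟨g5, le_rfl⟩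
      · rw [sy, h1']; exact Or.inr ⟨g4, by simp⟩
  · obtain ⟨g1, g2, g3, g4, g5⟩ := f1 (φ y).1
    have sy : ins_s (φ y).2 (φ y).2 = (φ y).2 := by simp [ins_s]
    rcases h2'.lt_or_eq with hlt' | heq
    · have sx : ins_s (φ y).2 (φ x).2 = (φ x).2 + 1 := by
        unfold ins_s; rw [if_neg (by omega)]
      refine key (φ y).2 (hlt y hy') (φ y).1 ((φ y).1 + 2) ((φ y).1 + 1) (Ne.symm g3)
        (Ne.symm g2) (Ne.symm g1) ?_ ?_ ?_ ?_
      · rw [sx, h1']; exact Or.inr ⟨rfl, by simp only; omega⟩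
      · exact Or.inr ⟨g5, le_rfl⟩
      · exact Or.inr ⟨g4, le_rfl⟩
      · rw [sy]; exact Or.inr ⟨rfl, by simp⟩
    · have sx : ins_s (φ y).2 (φ x).2 = (φ y).2 := by
        unfold ins_s; rw [if_pos (by omega), heq]
      refine key (φ y).2 (hlt y hy') ((φ y).1 + 2) (φ y).1 ((φ y).1 + 1) g3 (Ne.symm g1)
        (Ne.symm g2) ?_ ?_ ?_ ?_
      · rw [sx, h1']; exact Or.inl ⟨g4, by simp⟩
      · exact Or.inl ⟨g5, le_rfl⟩
      · exact Or.inl ⟨rfl, le_rfl⟩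
      · rw [sy]; exact Or.inr ⟨rfl, by simp⟩

end SY
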