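import Pool.Agent.Helper353.SY.Defs
import Pool.Agent.Helper353.SY.P_ins

set_option autoImplicit false

namespace SY



theorem redstep_dg {V : Type} (H H' : SimpleGraph V) (S S' : Finset V) (v b a : V)
    (hsub : S' ⊆ S) (hb : b ∈ S) (hb' : b ∉ S') (hadj : H.Adj v b)
    (hH : ∀ w ∈ S', H'.Adj v w → H.Adj v w ∨ w = a)
    (hd : dg H S v ≤ 2) : dg H' S' v ≤ 2 := by
  classical
  unfold dg at *
  have h1 : (S'.filter (fun w => H'.Adj v w)) ⊆
      insert a ((S.filter (fun w => H.Adj v w)).erase b) := by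
    intro w hw
    rw [Finset.mem_filter] at hw
    rcases hH w hw.1 hw.2 with h | h
    · rw [Finset.mem_insert, Finset.mem_erase, Finset.mem_filter]
      right
      refine ⟨?_, hsub hw.1, h⟩
      rintro rfl
      exact hb' hw.1
    · rw [Finset.mem_insert]
      exact Or.inl h
  have h2 := Finset.card_le_card h1
  have h3 := Finset.card_insert_le a ((S.filter (fun w => H.Adj v w)).erase b)
  have h4 : b ∈ S.filter (fun w => H.Adj v w) := by
    rw [Finset.mem_filter]; exact ⟨hb, hadj⟩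
  have h5 := Finset.card_erase_of_mem h4
  have h6 : 0 < (S.filter (fun w => H.Adj v w)).card := Finset.card_pos.mpr ⟨b, h4⟩
  have hd' : (S.filter (fun w => H.Adj v w)).card ≤ 2 := by
    convert hd using 2
  have : (S'.filter (fun w => H'.Adj v w)).card ≤ 2 := by omega
  convert this using 2

theorem redstep_mono {V : Type} (H H' : SimpleGraph V) (S S' : Finset V) (v : V)
    (h : ∀ w ∈ S', H'.Adj v w → w ∈ S ∧ H.Adj v w) : dg H' S' v ≤ dg H S v := by
  classical
  unfold dg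
  apply Finset.card_le_card
  intro w hw
  simp only [Finset.mem_filter] at hw ⊢
  exact h w hw.1 hw.2

theorem redstep {V : Type} [DecidableEq V] (S : Finset V) (H : SimpleGraph V) (m : ℕ)
    (hS : S.card = 3 * (m + 1)) (hdeg : ∀ v ∈ S, dg H S v ≤ 2) (hR : Red H S)
    (IH : ∀ (H' : SimpleGraph V) (S' : Finset V), S'.card = 3 * m →
      (∀ v ∈ S', dg H' S' v ≤ 2) → Arr H' S' m) : Arr H S (m + 1) := by
  classical
  obtain ⟨x, v1, v2, v3, y, hx, h1, h2, h3, hy, hnd, hxv, hvy, hxy, n1, n2, n3⟩ := hR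
  have hnd' := hnd
  simp only [List.nodup_cons, List.mem_cons, List.not_mem_nil, or_false, not_or,
    List.nodup_nil, and_true, not_false_eq_true] at hnd'
  obtain ⟨⟨a1, a2, a3, a4⟩, ⟨a5, a6, a7⟩, ⟨a8, a9⟩, a10⟩ := hnd'
  set H' : SimpleGraph V := H ⊔ SimpleGraph.edge x y with hH'
  have hadj : ∀ a b, H'.Adj a b ↔ (H.Adj a b ∨ ((a = x ∧ b = y ∨ a = y ∧ b = x) ∧ a ≠ b)) := by
    intro a b
    rw [hH', SimpleGraph.sup_adj, SimpleGraph.edge_adj]
  have hsub3 : ({v1, v2, v3} : Finset V) ⊆ S := by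
    intro w hw
    simp only [Finset.mem_insert, Finset.mem_singleton] at hw
    rcases hw with rfl | rfl | rfl <;> assumption
  have hc3 : ({v1, v2, v3} : Finset V).card = 3 := by
    rw [Finset.card_eq_three]
    exact ⟨v1, v2, v3, a5, a6, a8, rfl⟩
  have hcard : (S \ {v1, v2, v3}).card = 3 * m := by
    rw [Finset.card_sdiff_of_subset hsub3, hS, hc3]
    omega
  have hsub : S \ {v1, v2, v3} ⊆ S := Finset.sdiff_subset
  refine ins H H' S m x v1 v2 v3 y hx h1 h2 h3 hy hnd n1 n2 n3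
    (fun a b hab => (hadj a b).2 (Or.inl hab)) ((hadj x y).2 (Or.inr ⟨Or.inl ⟨rfl, rfl⟩, a4⟩)) ?_
  apply IH H' _ hcard
  intro v hv
  by_cases hvx : v = x
  · subst hvx
    refine redstep_dg H H' S _ v v1 y hsub h1 (by simp) hxv ?_ (hdeg v hx)
    intro w hw hvw
    rcases (hadj v w).1 hvw with h | ⟨⟨_, h⟩ | ⟨h, _⟩, _⟩
    · exact Or.inl h
    · exact Or.inr h
    · exact absurd h a4
  · by_cases hvy' : v = y
    · subst hvy'
      refine redstep_dg H H' S _ v v3 x hsub h3 (by simp) hvy.symm ?_ (hdeg v hy)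
      intro w hw hvw
      rcases (hadj v w).1 hvw with h | ⟨⟨h, _⟩ | ⟨_, h⟩, _⟩
      · exact Or.inl h
      · exact absurd h hvx
      · exact Or.inr h
    · have hd := hdeg v (hsub hv)
      refine le_trans (redstep_mono H H' S _ v ?_) hd
      intro w hw0 hw1
      have hw : w ∈ S \ {v1, v2, v3} ∧ H'.Adj v w := ⟨hw0, hw1⟩
      refine ⟨hsub hw.1, ?_⟩
      rcases (hadj v w).1 hw.2 with h | ⟨⟨h, _⟩ | ⟨h, _⟩, _⟩
      · exact h
      · exact absurd h hvx
      · exact absurd h hvy'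

end SY
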