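import Pool.Agent.Helper353.SY.Defs
import Pool.Agent.Helper353.SY.P_maxi
import Pool.Agent.Helper353.SY.P_left
import Pool.Agent.Helper353.SY.P_nr0
import Pool.Agent.Helper353.SY.P_nr1
import Pool.Agent.Helper353.SY.P_nr2
import Pool.Agent.Helper353.SY.P_redstep
import Pool.Agent.Helper353.SY.P_blockstep

set_option autoImplicit false

namespace SY



theorem main {V : Type} [Fintype V] (m : ℕ) (H : SimpleGraph V) (S : Finset V)
    (hS : S.card = 3 * m) (hdeg : ∀ v ∈ S, dg H S v ≤ 2) : Arr H S m := by
  classical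
  induction m using Nat.strong_induction_on generalizing H S with
  | _ m IH =>
    rcases Nat.eq_zero_or_pos m with hm | hm
    · subst hm
      have hS0 : S = ∅ := by
        rw [← Finset.card_eq_zero, hS]
      subst hS0
      exact ⟨fun _ => (0, 0), by simp, by simp, by simp⟩
    · obtain ⟨H', hle, hdeg', hmax⟩ := maxi S H hdeg
      have hmono : Arr H' S m → Arr H S m := by
        rintro ⟨φ, h1, h2, h3⟩
        exact ⟨φ, h1, h2, fun x hx y hy hxy => h3 x hx y hy (hle x y hxy)⟩
      apply hmono
      by_cases hR : Red H' S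
      · obtain ⟨k, rfl⟩ : ∃ k, m = k + 1 := ⟨m - 1, by omega⟩
        exact redstep S H' k hS hdeg' hR (fun H'' S'' h1 h2 => IH k (Nat.lt_succ_self k) H'' S'' h1 h2)
      · have hout : Out H' S := by
          rcases left S H' hdeg' hmax with h2 | ⟨c, hc, h2⟩ | ⟨c, hc, h2⟩
          · exact nr0 S H' m hS hm hR h2
          · exact nr1 S H' m hS hm hR c hc h2
          · exact nr2 S H' m hS hm hR c hc h2
        obtain ⟨T, q, hq, hT, hTc, hcl, hA⟩ := hout
        exact blockstep S H' m hS hdeg' T q hq hT hTc hcl hA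
          (fun k hk H'' S'' h1 h2 => IH k hk H'' S'' h1 h2)

end SY
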