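import Pool.Agent.Helper353.SY.Defs

set_option autoImplicit false

namespace SY



theorem posn {V : Type} [Fintype V] (H : SimpleGraph V) (m : ℕ)
    (hA : Arr H Finset.univ m) :
    ∃ p : V → ℕ, Function.Injective p ∧ (∀ v, p v < 3 * m) ∧
      ∀ x y, H.Adj x y → p x < p y → m ≤ p y - p x ∧ p y - p x ≤ 2 * m := by
  obtain ⟨φ, hinj, hlt, hok⟩ := hA
  refine ⟨fun v => (φ v).1.val * m + (φ v).2, ?_, ?_, ?_⟩
  · intro v w hvw
    have hv := hlt v (Finset.mem_univ v)
    have hw := hlt w (Finset.mem_univ w)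
    apply hinj (by simp) (by simp)
    simp only at hvw
    have hmpos : 0 < m := by omega
    have h1 : (φ v).1.val = (φ w).1.val := by
      have e1 : ((φ v).1.val * m + (φ v).2) / m = (φ v).1.val := by
        rw [Nat.add_comm, Nat.add_mul_div_right _ _ hmpos, Nat.div_eq_of_lt hv, Nat.zero_add]
      have e2 : ((φ w).1.val * m + (φ w).2) / m = (φ w).1.val := by
        rw [Nat.add_comm, Nat.add_mul_div_right _ _ hmpos, Nat.div_eq_of_lt hw, Nat.zero_add]
      rw [← e1, ← e2, hvw]
    have h2 : (φ v).2 = (φ w).2 := by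
      rw [h1] at hvw
      omega
    exact Prod.ext (Fin.ext h1) h2
  · intro v
    have hv := hlt v (Finset.mem_univ v)
    have h3 : (φ v).1.val ≤ 2 := by have := (φ v).1.isLt; omega
    have h4 : (φ v).1.val * m ≤ 2 * m := Nat.mul_le_mul_right m h3
    show (φ v).1.val * m + (φ v).2 < 3 * m
    omega
  · intro x y hxy hlt'
    have hx := hlt x (Finset.mem_univ x)
    have hy := hlt y (Finset.mem_univ y)
    have h := hok x (Finset.mem_univ x) y (Finset.mem_univ y) hxy
    simp only at hlt' ⊢
    unfold OK at h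
    generalize φ x = p at *
    generalize φ y = q at *
    obtain ⟨a, i⟩ := p
    obtain ⟨b, j⟩ := q
    simp only at *
    fin_cases a <;> fin_cases b <;> simp at h hlt' ⊢ <;> omega

end SY
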