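import Pool.Agent.Helper353.SY.Defs

set_option autoImplicit false

namespace SY



theorem rank {V V' : Type} [Fintype V] [Fintype V'] [DecidableEq V'] (f : V → V')
    (hf : Function.Injective f) (p : V' → ℕ) (hp : Function.Injective p)
    (hpN : ∀ v, p v < Fintype.card V') :
    ∃ σ : V ≃ Fin (Fintype.card V), ∀ x y : V, p (f x) < p (f y) →
      (σ x).val < (σ y).val ∧
      (σ y).val - (σ x).val + (Finset.univ.filter (fun w : V' => (∀ v, f v ≠ w) ∧
        p (f x) < p w ∧ p w < p (f y))).card = p (f y) - p (f x) := by
  classical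
  set r : V → ℕ := fun v => (Finset.univ.filter (fun u : V => p (f u) < p (f v))).card with hr
  have hrlt : ∀ v, r v < Fintype.card V := by
    intro v
    rw [← Finset.card_univ]
    apply Finset.card_lt_card
    rw [Finset.ssubset_univ_iff]
    intro h
    have : v ∈ Finset.univ.filter (fun u : V => p (f u) < p (f v)) := by
      rw [h]; exact Finset.mem_univ v
    rw [Finset.mem_filter] at this
    exact lt_irrefl _ this.2
  have hrmono : ∀ x y, p (f x) < p (f y) → r x < r y := by
    intro x y hxy
    apply Finset.card_lt_card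
    rw [Finset.ssubset_iff_of_subset]
    · refine ⟨x, ?_, ?_⟩
      · simpa using hxy
      · simp
    · intro u hu
      simp only [Finset.mem_filter, Finset.mem_univ, true_and] at hu ⊢
      omega
  have hrinj : Function.Injective (fun v => (⟨r v, hrlt v⟩ : Fin (Fintype.card V))) := by
    intro x y hxy
    have h1 : r x = r y := by simpa using hxy
    rcases lt_trichotomy (p (f x)) (p (f y)) with h | h | h
    · have := hrmono _ _ h; omega
    · exact hf (hp h)
    · have := hrmono _ _ h; omega
  have hbij : Function.Bijective (fun v => (⟨r v, hrlt v⟩ : Fin (Fintype.card V))) := by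
    rw [Fintype.bijective_iff_injective_and_card]
    exact ⟨hrinj, by simp⟩
  refine ⟨Equiv.ofBijective _ hbij, ?_⟩
  intro x y hxy
  have e1 : ∀ v, (Equiv.ofBijective _ hbij v).val = r v := fun v => rfl
  rw [e1, e1]
  refine ⟨hrmono x y hxy, ?_⟩
  -- surjectivity of p
  have hpsurj : ∀ k, k < Fintype.card V' → ∃ w, p w = k := by
    have hb : Function.Bijective (fun w => (⟨p w, hpN w⟩ : Fin (Fintype.card V'))) := by
      rw [Fintype.bijective_iff_injective_and_card]
      refine ⟨fun a b hab => hp ?_, by simp⟩
      simpa using hab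
    intro k hk
    obtain ⟨w, hw⟩ := hb.2 ⟨k, hk⟩
    exact ⟨w, by simpa using congrArg Fin.val hw⟩
  have hW : (Finset.univ.filter (fun w : V' => p (f x) ≤ p w ∧ p w < p (f y))).card
      = p (f y) - p (f x) := by
    rw [← Nat.card_Ico]
    rw [← Finset.card_image_of_injective _ hp]
    congr 1
    ext k
    simp only [Finset.mem_image, Finset.mem_filter, Finset.mem_univ, true_and, Finset.mem_Ico]
    constructor
    · rintro ⟨w, hw, rfl⟩; exact hw
    · intro hk
      obtain ⟨w, hw⟩ := hpsurj k (lt_trans hk.2 (hpN _))
      exact ⟨w, by rw [hw]; exact hk, hw⟩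
  have hsplit : (Finset.univ.filter (fun w : V' => p (f x) ≤ p w ∧ p w < p (f y)))
      = ((Finset.univ.filter (fun u : V => p (f x) ≤ p (f u) ∧ p (f u) < p (f y))).image f) ∪
        (Finset.univ.filter (fun w : V' => (∀ v, f v ≠ w) ∧ p (f x) < p w ∧ p w < p (f y))) := by
    ext w
    simp only [Finset.mem_union, Finset.mem_image, Finset.mem_filter, Finset.mem_univ, true_and]
    constructor
    · rintro ⟨h1, h2⟩
      by_cases hw : ∃ v, f v = w
      · obtain ⟨v, rfl⟩ := hw
        exact Or.inl ⟨v, ⟨h1, h2⟩, rfl⟩
      · right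
        push Not at hw
        refine ⟨hw, lt_of_le_of_ne h1 ?_, h2⟩
        intro h3
        exact hw x (hp h3)
    · rintro (⟨v, hv, rfl⟩ | ⟨_, h1, h2⟩)
      · exact hv
      · exact ⟨h1.le, h2⟩
  have hdisj : Disjoint
      ((Finset.univ.filter (fun u : V => p (f x) ≤ p (f u) ∧ p (f u) < p (f y))).image f)
      (Finset.univ.filter (fun w : V' => (∀ v, f v ≠ w) ∧ p (f x) < p w ∧ p w < p (f y))) := by
    rw [Finset.disjoint_left]
    intro w hw1 hw2
    simp only [Finset.mem_image, Finset.mem_filter, Finset.mem_univ, true_and] at hw1 hw2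
    obtain ⟨v, _, hv⟩ := hw1
    exact hw2.1 v hv
  have hry : r y = r x +
      (Finset.univ.filter (fun u : V => p (f x) ≤ p (f u) ∧ p (f u) < p (f y))).card := by
    rw [hr]
    simp only
    rw [← Finset.card_union_of_disjoint]
    · congr 1
      ext u
      simp only [Finset.mem_union, Finset.mem_filter, Finset.mem_univ, true_and]
      omega
    · rw [Finset.disjoint_left]
      intro u hu1 hu2
      simp only [Finset.mem_filter, Finset.mem_univ, true_and] at hu1 hu2
      omega
  rw [hsplit, Finset.card_union_of_disjoint hdisj, Finset.card_image_of_injective _ hf] at hW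
  omega

end SY
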