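import Pool.Agent.Helper353.SY.Defs
import Pool.Agent.Helper353.SY.P_main
import Pool.Agent.Helper353.SY.P_posn
import Pool.Agent.Helper353.SY.P_rank

set_option autoImplicit false

namespace SY



theorem cyc0 {V : Type} [Fintype V] (H : SimpleGraph V) (m : ℕ)
    (hn : Fintype.card V = 3 * m) (hdeg : ∀ v, dg H Finset.univ v ≤ 2) :
    ∃ σ : V ≃ Fin (Fintype.card V), ∀ x y, H.Adj x y → (σ x).val < (σ y).val →
      m ≤ (σ y).val - (σ x).val ∧ (σ y).val - (σ x).val ≤ Fintype.card V - m := by
  classical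
  have hA : Arr H Finset.univ m := main m H Finset.univ (by rw [Finset.card_univ]; exact hn)
    (fun v _ => hdeg v)
  obtain ⟨p, hpi, hpl, hp⟩ := posn H m hA
  obtain ⟨σ, hσ⟩ := rank (V := V) (V' := V) (fun v => v) (fun a b h => h) p hpi
    (fun v => by rw [hn]; exact hpl v)
  have key : ∀ x y : V, p x < p y → (σ x).val < (σ y).val ∧
      (σ y).val - (σ x).val = p y - p x := by
    intro x y hxy
    obtain ⟨h1, h2⟩ := hσ x y hxy
    refine ⟨h1, ?_⟩
    rw [← h2]
    have hz : (Finset.univ.filter (fun w : V => (∀ v : V, v ≠ w) ∧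
        p x < p w ∧ p w < p y)).card = 0 := by
      rw [Finset.card_eq_zero, Finset.filter_eq_empty_iff]
      intro w _ hw
      exact hw.1 w rfl
    have hz2 := hz
    simp only [hz2, Nat.add_zero]
  refine ⟨σ, fun x y hxy hlt => ?_⟩
  have hne : x ≠ y := H.ne_of_adj hxy
  have hpne : p x ≠ p y := fun h => hne (hpi h)
  have hpxy : p x < p y := by
    rcases lt_or_gt_of_ne hpne with h | h
    · exact h
    · have := (key y x h).1
      omega
  obtain ⟨_, h2⟩ := key x y hpxy
  obtain ⟨h3, h4⟩ := hp x y hxy hpxy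
  rw [h2, hn]
  omega

end SY
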