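import Pool.Agent.Helper353.SY.Defs
import Pool.Agent.Helper353.SY.P_main
import Pool.Agent.Helper353.SY.P_posn
import Pool.Agent.Helper353.SY.P_rank

set_option autoImplicit false

namespace SY



def Hx {V : Type} (H : SimpleGraph V) : SimpleGraph (Option (Option V)) where
  Adj a b := (∃ x y, a = some (some x) ∧ b = some (some y) ∧ H.Adj x y) ∨
    (a = none ∧ b = some none) ∨ (a = some none ∧ b = none)
  symm := ⟨by
    rintro a b (⟨x, y, rfl, rfl, h⟩ | ⟨rfl, rfl⟩ | ⟨rfl, rfl⟩)
    · exact Or.inl ⟨y, x, rfl, rfl, h.symm⟩
    · exact Or.inr (Or.inr ⟨rfl, rfl⟩)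
    · exact Or.inr (Or.inl ⟨rfl, rfl⟩)⟩
  loopless := ⟨by
    rintro a (⟨x, y, h1, h2, h⟩ | ⟨h1, h2⟩ | ⟨h1, h2⟩)
    · rw [h1] at h2
      have : x = y := by simpa using h2
      subst this
      exact H.irrefl h
    · rw [h1] at h2; simp at h2
    · rw [h1] at h2; simp at h2⟩

theorem Hx_ss {V : Type} (H : SimpleGraph V) (x y : V) :
    (Hx H).Adj (some (some x)) (some (some y)) ↔ H.Adj x y := by
  simp only [Hx]
  constructor
  · rintro (⟨a, b, h1, h2, h⟩ | ⟨h1, _⟩ | ⟨h1, _⟩)
    · have e1 : x = a := by simpa using h1
      have e2 : y = b := by simpa using h2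
      subst e1; subst e2; exact h
    · simp at h1
    · simp at h1
  · intro h; exact Or.inl ⟨x, y, rfl, rfl, h⟩

theorem dg_Hx {V : Type} [Fintype V] (H : SimpleGraph V)
    (hdeg : ∀ v, dg H Finset.univ v ≤ 2) (v : Option (Option V)) :
    dg (Hx H) Finset.univ v ≤ 2 := by
  classical
  rcases v with _ | v
  · unfold dg
    refine le_trans (Finset.card_le_card (t := {some none}) ?_) (by simp)
    intro w hw
    rw [Finset.mem_filter] at hw
    rcases hw.2 with ⟨a, b, h1, h2, h⟩ | ⟨h1, h2⟩ | ⟨h1, h2⟩
    · simp at h1
    · simp [h2]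
    · simp at h1
  rcases v with _ | x
  · unfold dg
    refine le_trans (Finset.card_le_card (t := {none}) ?_) (by simp)
    intro w hw
    rw [Finset.mem_filter] at hw
    rcases hw.2 with ⟨a, b, h1, h2, h⟩ | ⟨h1, h2⟩ | ⟨h1, h2⟩
    · simp at h1
    · simp at h1
    · simp [h2]
  · refine le_trans ?_ (hdeg x)
    unfold dg
    refine le_trans (Finset.card_le_card
      (t := (Finset.univ.filter (fun w => H.Adj x w)).image (fun w => some (some w))) ?_)
      Finset.card_image_le
    intro w hw
    rw [Finset.mem_filter] at hw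
    rcases hw.2 with ⟨a, b, h1, h2, h⟩ | ⟨h1, h2⟩ | ⟨h1, h2⟩
    · have e1 : x = a := by simpa using h1
      subst e1
      rw [Finset.mem_image]
      exact ⟨b, by simp [h], h2.symm⟩
    · simp at h1
    · simp at h1

theorem cyc1 {V : Type} [Fintype V] (H : SimpleGraph V) (m : ℕ)
    (hn : Fintype.card V = 3 * m + 1) (hdeg : ∀ v, dg H Finset.univ v ≤ 2) :
    ∃ σ : V ≃ Fin (Fintype.card V), ∀ x y, H.Adj x y → (σ x).val < (σ y).val →
      m ≤ (σ y).val - (σ x).val ∧ (σ y).val - (σ x).val ≤ Fintype.card V - m := by
  classical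
  have hc : Fintype.card (Option (Option V)) = 3 * (m + 1) := by
    simp [Fintype.card_option, hn]; omega
  obtain ⟨p, hp, hlt, hadj⟩ := posn (Hx H) (m + 1)
    (main (m + 1) (Hx H) Finset.univ (by rw [Finset.card_univ, hc]) (fun v _ => dg_Hx H hdeg v))
  have hf : Function.Injective (fun v : V => some (some v)) := by
    intro a b h; simpa using h
  obtain ⟨σ, hσ⟩ := rank (fun v : V => some (some v)) hf p hp (fun v => by rw [hc]; exact hlt v)
  refine ⟨σ, ?_⟩
  intro x y hxy hlt2
  have hne : x ≠ y := hxy.ne
  have hpxy : p (some (some x)) < p (some (some y)) := by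
    rcases lt_trichotomy (p (some (some x))) (p (some (some y))) with h | h | h
    · exact h
    · exact absurd (by simpa using hp h) hne
    · exact absurd (hσ y x h).1 (by omega)
  obtain ⟨h1, h2⟩ := hσ x y hpxy
  obtain ⟨h3, h4⟩ := hadj _ _ ((Hx_ss H x y).2 hxy) hpxy
  have hd : (Hx H).Adj none (some none) := Or.inr (Or.inl ⟨rfl, rfl⟩)
  have hd1 := hadj _ _ hd
  have hd2 := hadj _ _ hd.symm
  have l1 := hlt none
  have l2 := hlt (some none)
  have l3 := hlt (some (some x))
  have l4 := hlt (some (some y))
  have n1 : p none ≠ p (some none) := fun h => by simpa using hp h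
  have n2 : p none ≠ p (some (some x)) := fun h => by simpa using hp h
  have n3 : p none ≠ p (some (some y)) := fun h => by simpa using hp h
  have n4 : p (some none) ≠ p (some (some x)) := fun h => by simpa using hp h
  have n5 : p (some none) ≠ p (some (some y)) := fun h => by simpa using hp h
  have hcnt : (Finset.univ.filter (fun w : Option (Option V) => (∀ v : V, some (some v) ≠ w) ∧
        p (some (some x)) < p w ∧ p w < p (some (some y)))).card =
      (if p (some (some x)) < p none ∧ p none < p (some (some y)) then 1 else 0) +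
      (if p (some (some x)) < p (some none) ∧ p (some none) < p (some (some y)) then 1 else 0) := by
    have : (Finset.univ.filter (fun w : Option (Option V) => (∀ v : V, some (some v) ≠ w) ∧
        p (some (some x)) < p w ∧ p w < p (some (some y)))) =
        (({none, some none} : Finset (Option (Option V))).filter (fun w =>
          p (some (some x)) < p w ∧ p w < p (some (some y)))) := by
      ext w
      rcases w with _ | w
      · simp
      rcases w with _ | w
      · simp
      · simp
    rw [this, Finset.card_filter, Finset.sum_insert (by simp), Finset.sum_singleton]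
  rw [hcnt] at h2
  have hn' := hn
  generalize (σ y).val = e at *
  generalize (σ x).val = g at *
  generalize Fintype.card V = N at *
  generalize p none = a at *
  generalize p (some none) = b at *
  generalize p (some (some x)) = c at *
  generalize p (some (some y)) = d at *
  split_ifs at h2 <;> omega

end SY
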