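import Pool.Agent.Helper353.SY.Defs
import Pool.Agent.Helper353.SY.P_main
import Pool.Agent.Helper353.SY.P_posn
import Pool.Agent.Helper353.SY.P_rank

set_option autoImplicit false

namespace SY



/-- the graph with an isolated vertex added -/
def optG {V : Type} (H : SimpleGraph V) : SimpleGraph (Option V) :=
  SimpleGraph.fromRel (fun u v => ∃ a b, H.Adj a b ∧ some a = u ∧ some b = v)

theorem optG_adj {V : Type} (H : SimpleGraph V) (u v : Option V) :
    (optG H).Adj u v ↔ ∃ a b, H.Adj a b ∧ some a = u ∧ some b = v := by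
  unfold optG
  rw [SimpleGraph.fromRel_adj]
  constructor
  · rintro ⟨_, ⟨a, b, h, h1, h2⟩ | ⟨a, b, h, h1, h2⟩⟩
    · exact ⟨a, b, h, h1, h2⟩
    · exact ⟨b, a, h.symm, h2, h1⟩
  · rintro ⟨a, b, h, h1, h2⟩
    refine ⟨?_, Or.inl ⟨a, b, h, h1, h2⟩⟩
    rw [← h1, ← h2]
    intro h3
    exact h.ne (Option.some_injective V h3)

theorem dg_optG_le {V : Type} [Fintype V] (H : SimpleGraph V)
    (hdeg : ∀ v, dg H Finset.univ v ≤ 2) (v : Option V) :
    dg (optG H) Finset.univ v ≤ 2 := by
  classical
  cases v with
  | none =>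
    have : dg (optG H) (Finset.univ : Finset (Option V)) none = 0 := by
      unfold dg
      rw [Finset.card_eq_zero, Finset.filter_eq_empty_iff]
      intro w _ hw
      rw [optG_adj] at hw
      obtain ⟨a, b, _, h1, _⟩ := hw
      exact absurd h1 (by simp)
    rw [this]
    exact Nat.zero_le _
  | some a =>
    have h1 := hdeg a
    refine le_trans ?_ h1
    unfold dg
    rw [← Finset.card_map (Function.Embedding.some : V ↪ Option V)]
    apply Finset.card_le_card
    intro w hw
    rw [Finset.mem_filter, optG_adj] at hw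
    obtain ⟨_, a', b, hab, h2, h3⟩ := hw
    have h4 : a' = a := Option.some_injective V h2
    subst h4
    rw [Finset.mem_map]
    exact ⟨b, by rw [Finset.mem_filter]; exact ⟨Finset.mem_univ _, hab⟩, h3⟩

theorem cyc2 {V : Type} [Fintype V] (H : SimpleGraph V) (m : ℕ)
    (hn : Fintype.card V = 3 * m + 2) (hdeg : ∀ v, dg H Finset.univ v ≤ 2) :
    ∃ σ : V ≃ Fin (Fintype.card V), ∀ x y, H.Adj x y → (σ x).val < (σ y).val →
      m ≤ (σ y).val - (σ x).val ∧ (σ y).val - (σ x).val ≤ Fintype.card V - m := by
  classical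
  have hcard : Fintype.card (Option V) = 3 * (m + 1) := by
    rw [Fintype.card_option, hn]
    ring
  have hA : Arr (optG H) (Finset.univ : Finset (Option V)) (m + 1) := by
    refine main (m + 1) (optG H) Finset.univ ?_
      (fun v _ => dg_optG_le H hdeg v)
    rw [Finset.card_univ, hcard]
  obtain ⟨p, hpi, hplt, hp⟩ := posn (optG H) (m + 1) hA
  obtain ⟨σ, hσ⟩ := rank (fun v : V => some v) (Option.some_injective V) p hpi
    (fun v => by rw [hcard]; exact hplt v)
  refine ⟨σ, fun x y hxy hlt => ?_⟩
  have hne : p (some x) ≠ p (some y) := by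
    intro h
    have h1 := hpi h
    exact hxy.ne (Option.some_injective V h1)
  have hlt' : p (some x) < p (some y) := by
    rcases lt_or_gt_of_ne hne with h | h
    · exact h
    · have h1 := (hσ y x h).1
      omega
  have h1 := (hσ x y hlt').2
  have h2 := hp (some x) (some y) ((optG_adj H _ _).mpr ⟨x, y, hxy, rfl, rfl⟩) hlt'
  have h3 : (Finset.univ.filter (fun w : Option V => (∀ v : V, some v ≠ w) ∧
        p (some x) < p w ∧ p w < p (some y))).card ≤ 1 := by
    rw [Finset.card_le_one]
    intro a ha b hb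
    rw [Finset.mem_filter] at ha hb
    cases a with
    | none =>
      cases b with
      | none => rfl
      | some b => exact absurd rfl (hb.2.1 b)
    | some a => exact absurd rfl (ha.2.1 a)
  have h4 : m ≤ (σ y).val - (σ x).val ∧ (σ y).val - (σ x).val ≤ 3 * m + 2 - m := by omega
  refine ⟨h4.1, h4.2.trans ?_⟩
  omega

end SY
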