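import Pool.Agent.Helper353.SY.Defs

set_option autoImplicit false

namespace SY



theorem degc {V : Type} [Fintype V] [DecidableEq V] (G : SimpleGraph V) [DecidableRel G.Adj]
    (v : V) : dg Gᶜ Finset.univ v + G.minDegree + 1 ≤ Fintype.card V := by
  have h1 : dg Gᶜ Finset.univ v = Gᶜ.degree v := by
    unfold dg SimpleGraph.degree
    congr 1
    ext w
    simp
  have h2 := G.degree_compl v
  have h3 := G.minDegree_le_degree v
  have h4 := G.degree_lt_card_verts v
  omega

end SY
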