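import Pool.Agent.Helper353.SY.Defs

set_option autoImplicit false

namespace SY



theorem fin {V : Type} [Fintype V] (G : SimpleGraph V) (r m : ℕ)
    (hrm : r + 1 ≤ m) (σ : V ≃ Fin (Fintype.card V))
    (hσ : ∀ x y, x ≠ y → ¬ G.Adj x y → (σ x).val < (σ y).val →
      m ≤ (σ y).val - (σ x).val ∧ (σ y).val - (σ x).val ≤ Fintype.card V - m) :
    ∃ τ : Fin (Fintype.card V) ≃ V,
      ∀ i k : Fin (Fintype.card V), k ≠ i →
        (k.val + Fintype.card V - i.val) % Fintype.card V ≤ r → G.Adj (τ i) (τ k) := by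
  refine ⟨σ.symm, fun i k hki hr => ?_⟩
  by_contra hadj
  have hne : σ.symm i ≠ σ.symm k := fun h => hki (σ.symm.injective h).symm
  have hadj' : ¬ G.Adj (σ.symm k) (σ.symm i) := fun h => hadj h.symm
  have hi := i.isLt
  have hk := k.isLt
  rcases lt_or_gt_of_ne (fun h : i.val = k.val => hki (Fin.ext h).symm) with hlt | hlt
  · have h := hσ _ _ hne hadj (by simpa using hlt)
    simp only [Equiv.apply_symm_apply] at h
    have e : k.val + Fintype.card V - i.val = (k.val - i.val) + Fintype.card V := by omega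
    rw [e, Nat.add_mod_right, Nat.mod_eq_of_lt (by omega)] at hr
    omega
  · have h := hσ _ _ hne.symm hadj' (by simpa using hlt)
    simp only [Equiv.apply_symm_apply] at h
    rw [Nat.mod_eq_of_lt (by omega)] at hr
    omega

end SY
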