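import Pool.Agent.Helper353.SY.Defs

set_option autoImplicit false

namespace SY


theorem mate_uniq {V : Type} (H : SimpleGraph V) (S : Finset V) (x a b : V)
    (hdx : dg H S x ≤ 1) (ha : a ∈ S) (hb : b ∈ S) (h1 : H.Adj x a) (h2 : H.Adj x b) : a = b := by
  classical
  unfold dg at hdx
  rw [Finset.card_le_one] at hdx
  exact hdx a (by simp [ha, h1]) b (by simp [hb, h2])

theorem mate {V : Type} [Fintype V] (H : SimpleGraph V) (h : ℕ) (S : Finset V)
    (hS : S.card = 2 * h) (hdeg : ∀ v ∈ S, dg H S v ≤ 1) :
    ∃ φ : V → Fin 2 × ℕ, Set.InjOn φ (S : Set V) ∧ (∀ v ∈ S, (φ v).2 < h) ∧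
      ∀ x ∈ S, ∀ y ∈ S, H.Adj x y → (φ x).2 = (φ y).2 := by
  classical
  induction h generalizing S with
  | zero =>
    have : S = ∅ := by rw [← Finset.card_eq_zero]; omega
    subst this
    exact ⟨fun _ => (0, 0), by simp, by simp, by simp⟩
  | succ h ih =>
    by_cases hex : ∃ x ∈ S, ∃ y ∈ S, H.Adj x y
    · obtain ⟨x, hx, y, hy, hxy⟩ := hex
      have hne : x ≠ y := H.ne_of_adj hxy
      have hyx : y ∈ S.erase x := Finset.mem_erase.mpr ⟨hne.symm, hy⟩
      have hc : ((S.erase x).erase y).card = 2 * h := by
        rw [Finset.card_erase_of_mem hyx, Finset.card_erase_of_mem hx, hS]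
        omega
      have hsub : (S.erase x).erase y ⊆ S := fun v hv =>
        Finset.mem_of_mem_erase (Finset.mem_of_mem_erase hv)
      obtain ⟨φ, hφ1, hφ2, hφ3⟩ := ih ((S.erase x).erase y) hc (by
        intro v hv
        refine le_trans ?_ (hdeg v (hsub hv))
        unfold dg
        exact Finset.card_le_card (Finset.filter_subset_filter _ hsub))
      have hmem : ∀ v ∈ S, v ≠ x → v ≠ y → v ∈ (S.erase x).erase y := fun v hv h1 h2 =>
        Finset.mem_erase.mpr ⟨h2, Finset.mem_erase.mpr ⟨h1, hv⟩⟩
      have ex : (if x = x then ((0 : Fin 2), h) else if x = y then (1, h) else φ x) = (0, h) := by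
        simp
      have ey : (if y = x then ((0 : Fin 2), h) else if y = y then (1, h) else φ y) = (1, h) := by
        simp [hne.symm]
      have eo : ∀ v, v ≠ x → v ≠ y →
          (if v = x then ((0 : Fin 2), h) else if v = y then (1, h) else φ v) = φ v := by
        intro v h1 h2
        simp [h1, h2]
      refine ⟨fun v => if v = x then (0, h) else if v = y then (1, h) else φ v, ?_, ?_, ?_⟩
      · intro a ha b hb hab
        have ha' : a ∈ S := ha
        have hb' : b ∈ S := hb
        simp only at hab
        by_cases a1 : a = x
        · subst a1
          by_cases b1 : b = a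
          · exact b1.symm
          · by_cases b2 : b = y
            · subst b2
              rw [ex, ey] at hab
              simp at hab
            · rw [ex, eo b b1 b2] at hab
              have := hφ2 b (hmem b hb' b1 b2)
              rw [← hab] at this
              simp at this
        · by_cases a2 : a = y
          · subst a2
            by_cases b1 : b = x
            · subst b1
              rw [ex, ey] at hab
              simp at hab
            · by_cases b2 : b = a
              · exact b2.symm
              · rw [ey, eo b b1 b2] at hab
                have := hφ2 b (hmem b hb' b1 b2)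
                rw [← hab] at this
                simp at this
          · rw [eo a a1 a2] at hab
            have h3 := hφ2 a (hmem a ha' a1 a2)
            by_cases b1 : b = x
            · subst b1
              rw [ex] at hab
              rw [hab] at h3
              simp at h3
            · by_cases b2 : b = y
              · subst b2
                rw [ey] at hab
                rw [hab] at h3
                simp at h3
              · rw [eo b b1 b2] at hab
                exact hφ1 (hmem a ha' a1 a2) (hmem b hb' b1 b2) hab
      · intro v hv
        simp only
        by_cases a1 : v = x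
        · subst a1
          rw [ex]
          simp
        · by_cases a2 : v = y
          · subst a2
            rw [ey]
            simp
          · rw [eo v a1 a2]
            have := hφ2 v (hmem v hv a1 a2)
            omega
      · intro a ha b hb hab
        simp only
        by_cases a1 : a = x
        · subst a1
          have : b = y := mate_uniq H S a b y (hdeg a ha) hb hy hab hxy
          subst this
          rw [ex, ey]
        · by_cases a2 : a = y
          · subst a2
            have : b = x := mate_uniq H S a b x (hdeg a ha) hb hx hab hxy.symm
            subst this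
            rw [ex, ey]
          · by_cases b1 : b = x
            · subst b1
              exact absurd (mate_uniq H S b a y (hdeg b hb) ha hy hab.symm hxy) a2
            · by_cases b2 : b = y
              · subst b2
                exact absurd (mate_uniq H S b a x (hdeg b hb) ha hx hab.symm hxy.symm) a1
              · rw [eo a a1 a2, eo b b1 b2]
                exact hφ3 a (hmem a ha a1 a2) b (hmem b hb b1 b2) hab
    · have hno : ∀ x ∈ S, ∀ y ∈ S, ¬ H.Adj x y := by
        intro x hx y hy hxy
        exact hex ⟨x, hx, y, hy, hxy⟩
      let e := S.equivFin
      refine ⟨fun v => if hv : v ∈ S then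
          (⟨(e ⟨v, hv⟩).val % 2, Nat.mod_lt _ (by norm_num)⟩, (e ⟨v, hv⟩).val / 2) else (0, 0),
          ?_, ?_, ?_⟩
      · intro a ha b hb hab
        have ha' : a ∈ S := ha
        have hb' : b ∈ S := hb
        simp only [dif_pos ha', dif_pos hb', Prod.mk.injEq, Fin.mk.injEq] at hab
        have h1 : (e ⟨a, ha'⟩).val = (e ⟨b, hb'⟩).val := by omega
        have h2 := e.injective (Fin.ext h1)
        exact congrArg Subtype.val h2
      · intro v hv
        simp only [dif_pos hv]
        have := (e ⟨v, hv⟩).isLt
        omega
      · intro x hx y hy hxy
        exact absurd hxy (hno x hx y hy)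

end SY
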