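import Pool.Agent.Helper353.SY.Defs
import Pool.Agent.Helper353.SY.P_rank
import Pool.Agent.Helper353.SY.P_mate

set_option autoImplicit false

namespace SY



theorem mat0 {V : Type} [Fintype V] (H : SimpleGraph V) (h : ℕ)
    (hn : Fintype.card V = 2 * h) (hdeg : ∀ v, dg H Finset.univ v ≤ 1) :
    ∃ σ : V ≃ Fin (Fintype.card V), ∀ x y, H.Adj x y → (σ x).val < (σ y).val →
      h ≤ (σ y).val - (σ x).val ∧ (σ y).val - (σ x).val ≤ Fintype.card V - h := by
  classical
  obtain ⟨φ, hinj, hlt, hadj⟩ := mate H h Finset.univ (by rw [Finset.card_univ]; exact hn)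
    (fun v _ => hdeg v)
  have hφ : Function.Injective φ := fun a b hab =>
    hinj (Finset.mem_coe.2 (Finset.mem_univ a)) (Finset.mem_coe.2 (Finset.mem_univ b)) hab
  have hl : ∀ v, (φ v).2 < h := fun v => hlt v (Finset.mem_univ v)
  have hc : ∀ v, (φ v).1.val = 0 ∨ (φ v).1.val = 1 := fun v => by have := (φ v).1.isLt; omega
  let p : V → ℕ := fun v => (φ v).1.val * h + (φ v).2
  have hp0 : ∀ v, (φ v).1.val = 0 → p v = (φ v).2 := fun v hv => by
    show (φ v).1.val * h + (φ v).2 = (φ v).2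
    rw [hv, zero_mul, zero_add]
  have hp1 : ∀ v, (φ v).1.val = 1 → p v = h + (φ v).2 := fun v hv => by
    show (φ v).1.val * h + (φ v).2 = h + (φ v).2
    rw [hv, one_mul]
  have hpinj : Function.Injective p := by
    intro a b hab
    apply hφ
    have ha := hl a
    have hb := hl b
    rcases hc a with ha1 | ha1 <;> rcases hc b with hb1 | hb1
    · rw [hp0 a ha1, hp0 b hb1] at hab
      exact Prod.ext (Fin.ext (ha1.trans hb1.symm)) hab
    · rw [hp0 a ha1, hp1 b hb1] at hab; omega
    · rw [hp1 a ha1, hp0 b hb1] at hab; omega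
    · rw [hp1 a ha1, hp1 b hb1] at hab
      exact Prod.ext (Fin.ext (ha1.trans hb1.symm)) (by omega)
  have hpN : ∀ v, p v < Fintype.card V := by
    intro v
    have hv := hl v
    rcases hc v with h1 | h1
    · rw [hp0 v h1, hn]; omega
    · rw [hp1 v h1, hn]; omega
  obtain ⟨σ, hσ⟩ := rank (V := V) (V' := V) id Function.injective_id p hpinj hpN
  have hdiff : ∀ x y : V, p x < p y → (σ x).val < (σ y).val ∧
      (σ y).val - (σ x).val = p y - p x := by
    intro x y hxy
    obtain ⟨h1, h2⟩ := hσ x y hxy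
    refine ⟨h1, ?_⟩
    have h3 : (Finset.univ.filter (fun w : V => (∀ v, id v ≠ w) ∧
        p (id x) < p w ∧ p w < p (id y))).card = 0 := by
      rw [Finset.card_eq_zero, Finset.filter_eq_empty_iff]
      rintro w _ ⟨hw, _⟩
      exact hw w rfl
    rw [h3] at h2
    simpa using h2
  refine ⟨σ, fun x y hxy hlt' => ?_⟩
  have hlev : (φ x).2 = (φ y).2 := hadj x (Finset.mem_univ x) y (Finset.mem_univ y) hxy
  have hne : φ x ≠ φ y := fun he => hxy.ne (hφ he)
  have hcne : (φ x).1.val ≠ (φ y).1.val := fun he => hne (Prod.ext (Fin.ext he) hlev)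
  have hpp : (p y = p x + h) ∨ (p x = p y + h) := by
    rcases hc x with hx1 | hx1 <;> rcases hc y with hy1 | hy1
    · omega
    · left; rw [hp0 x hx1, hp1 y hy1]; omega
    · right; rw [hp1 x hx1, hp0 y hy1]; omega
    · omega
  have hh : 0 < h := lt_of_le_of_lt (Nat.zero_le _) (hl x)
  rcases hpp with h1 | h1
  · obtain ⟨_, h3⟩ := hdiff x y (by omega)
    omega
  · obtain ⟨h2, _⟩ := hdiff y x (by omega)
    omega

end SY
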