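import Pool.Agent.Helper353.SY.Defs
import Pool.Agent.Helper353.SY.P_rank
import Pool.Agent.Helper353.SY.P_mate

set_option autoImplicit false

namespace SY



theorem mat1_aux (m i j s t : ℕ) (hs : s < m) (h : i < j) : i * m + s < j * m + t := by
  have h1 : (i + 1) * m ≤ j * m := Nat.mul_le_mul_right m h
  rw [Nat.add_mul, Nat.one_mul] at h1
  omega

theorem mat1 {V : Type} [Fintype V] (H : SimpleGraph V) (h : ℕ)
    (hn : Fintype.card V = 2 * h + 1) (hdeg : ∀ v, dg H Finset.univ v ≤ 1) :
    ∃ σ : V ≃ Fin (Fintype.card V), ∀ x y, H.Adj x y → (σ x).val < (σ y).val →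
      h ≤ (σ y).val - (σ x).val ∧ (σ y).val - (σ x).val ≤ Fintype.card V - h := by
  classical
  obtain ⟨H', hH'⟩ : ∃ H' : SimpleGraph (Option V), ∀ a b, H'.Adj a b ↔
      ∃ u v, H.Adj u v ∧ some u = a ∧ some v = b :=
    ⟨H.map Function.Embedding.some, fun a b => SimpleGraph.map_adj _ _ _ _⟩
  have hcard : (Finset.univ : Finset (Option V)).card = 2 * (h + 1) := by
    rw [Finset.card_univ, Fintype.card_option, hn]; ring
  have hd : ∀ v ∈ (Finset.univ : Finset (Option V)), dg H' Finset.univ v ≤ 1 := by
    intro v _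
    unfold dg
    rw [Finset.card_le_one]
    intro a ha b hb
    rw [Finset.mem_filter] at ha hb
    obtain ⟨-, ha⟩ := ha
    obtain ⟨-, hb⟩ := hb
    rw [hH'] at ha hb
    obtain ⟨u, a', hua, hu, rfl⟩ := ha
    obtain ⟨u', b', hub, hu', rfl⟩ := hb
    have huu : u = u' := Option.some_injective _ (hu.trans hu'.symm)
    subst huu
    have h1 := hdeg u
    unfold dg at h1
    rw [Finset.card_le_one] at h1
    have h2 := h1 a' (by simp [hua]) b' (by simp [hub])
    rw [h2]
  obtain ⟨φ, hinj, hlt, hadj⟩ := mate H' (h + 1) Finset.univ hcard hd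
  have hlt' : ∀ v, (φ v).2 < h + 1 := fun v => hlt v (Finset.mem_univ _)
  let p : Option V → ℕ := fun v => (φ v).1.val * (h + 1) + (φ v).2
  have hp : Function.Injective p := by
    intro a b hab
    have hab' : (φ a).1.val * (h + 1) + (φ a).2 = (φ b).1.val * (h + 1) + (φ b).2 := hab
    apply hinj (by simp) (by simp)
    have h1 : (φ a).1.val = (φ b).1.val := by
      by_contra hne
      rcases lt_or_gt_of_ne hne with h2 | h2
      · have := mat1_aux (h + 1) _ _ _ (φ b).2 (hlt' a) h2
        omega
      · have := mat1_aux (h + 1) _ _ _ (φ a).2 (hlt' b) h2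
        omega
    have h2 : (φ a).2 = (φ b).2 := by
      rw [h1] at hab'
      omega
    exact Prod.ext (Fin.ext h1) h2
  have hpN : ∀ v, p v < Fintype.card (Option V) := by
    intro v
    have h1 : Fintype.card (Option V) = 2 * (h + 1) := by rw [← Finset.card_univ]; exact hcard
    rw [h1]
    have h2 := (φ v).1.isLt
    have := mat1_aux (h + 1) _ _ _ 0 (hlt' v) h2
    show (φ v).1.val * (h + 1) + (φ v).2 < _
    omega
  obtain ⟨σ, hσ⟩ := rank (fun v : V => (some v : Option V)) (Option.some_injective V) p hp hpN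
  refine ⟨σ, fun x y hxy hlt0 => ?_⟩
  have hne : x ≠ y := hxy.ne
  have hpne : p (some x) ≠ p (some y) := fun h0 => hne (Option.some_injective _ (hp h0))
  have hpl : p (some x) < p (some y) := by
    rcases lt_or_gt_of_ne hpne with h1 | h1
    · exact h1
    · have := (hσ y x h1).1
      omega
  obtain ⟨-, heq⟩ := hσ x y hpl
  have hadj' : H'.Adj (some x) (some y) := (hH' _ _).2 ⟨x, y, hxy, rfl, rfl⟩
  have hlev : (φ (some x)).2 = (φ (some y)).2 :=
    hadj _ (Finset.mem_univ _) _ (Finset.mem_univ _) hadj'
  have hdiff : p (some y) - p (some x) = h + 1 := by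
    have e1 : p (some x) = (φ (some x)).1.val * (h + 1) + (φ (some x)).2 := rfl
    have e2 : p (some y) = (φ (some y)).1.val * (h + 1) + (φ (some y)).2 := rfl
    have b1 := (φ (some x)).1.isLt
    have b2 := (φ (some y)).1.isLt
    rw [e1, e2] at hpl ⊢
    rw [hlev] at hpl ⊢
    generalize (φ (some x)).1.val = i at *
    generalize (φ (some y)).1.val = j at *
    interval_cases i <;> interval_cases j <;> omega
  have hcnt : (Finset.univ.filter (fun w : Option V => (∀ v, (some v : Option V) ≠ w) ∧
        p (some x) < p w ∧ p w < p (some y))).card ≤ 1 := by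
    rw [Finset.card_le_one]
    intro a ha b hb
    rw [Finset.mem_filter] at ha hb
    cases a with
    | some a => exact absurd rfl (ha.2.1 a)
    | none =>
      cases b with
      | some b => exact absurd rfl (hb.2.1 b)
      | none => rfl
  rw [hdiff] at heq
  omega

end SY
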