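import Pool.Agent.Helper353.SY.Defs
import Pool.Agent.Helper353.SY.P_cyc0
import Pool.Agent.Helper353.SY.P_cyc1
import Pool.Agent.Helper353.SY.P_cyc2
import Pool.Agent.Helper353.SY.P_mat0
import Pool.Agent.Helper353.SY.P_mat1
import Pool.Agent.Helper353.SY.P_fin
import Pool.Agent.Helper353.SY.P_degc

set_option autoImplicit false

namespace SY



theorem seymour (r : ℕ) (V : Type) [Fintype V] [DecidableEq V] (G : SimpleGraph V)
    [DecidableRel G.Adj] (hn : Fintype.card V < 4 * (r + 1))
    (hd : r * Fintype.card V ≤ (r + 1) * G.minDegree) :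
    ∃ σ : Fin (Fintype.card V) ≃ V,
      ∀ i k : Fin (Fintype.card V), k ≠ i →
        (k.val + Fintype.card V - i.val) % Fintype.card V ≤ r →
          G.Adj (σ i) (σ k) := by
  have hdc := degc G
  rcases isEmpty_or_nonempty V with hV | ⟨⟨v0⟩⟩
  · refine ⟨(Fintype.equivFin V).symm, ?_⟩
    intro i
    exact (hV.false ((Fintype.equivFin V).symm i)).elim
  have hv0 := hdc v0
  obtain ⟨e, he⟩ : ∃ e, Fintype.card V = G.minDegree + e := ⟨Fintype.card V - G.minDegree, by omega⟩
  have hre : (r + 1) * e ≤ Fintype.card V := by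
    have h1 : (r + 1) * Fintype.card V = (r + 1) * G.minDegree + (r + 1) * e := by
      rw [he]; ring
    have h2 : (r + 1) * Fintype.card V = r * Fintype.card V + Fintype.card V := by ring
    omega
  have hcomp : ∀ x y, x ≠ y → ¬ G.Adj x y → Gᶜ.Adj x y := by
    intro x y hxy hG
    rw [SimpleGraph.compl_adj]
    exact ⟨hxy, hG⟩
  by_cases h3 : 3 * (r + 1) ≤ Fintype.card V
  · have he3 : e < 4 := by
      by_contra hcon
      have : (r + 1) * 4 ≤ (r + 1) * e := Nat.mul_le_mul_left _ (by omega)
      omega
    have hdg : ∀ v, dg Gᶜ Finset.univ v ≤ 2 := by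
      intro v
      have := hdc v
      omega
    have hm : r + 1 ≤ Fintype.card V / 3 := by omega
    have key : ∃ σ : V ≃ Fin (Fintype.card V), ∀ x y, Gᶜ.Adj x y → (σ x).val < (σ y).val →
        Fintype.card V / 3 ≤ (σ y).val - (σ x).val ∧
          (σ y).val - (σ x).val ≤ Fintype.card V - Fintype.card V / 3 := by
      have hmod : Fintype.card V % 3 = 0 ∨ Fintype.card V % 3 = 1 ∨ Fintype.card V % 3 = 2 := by
        omega
      rcases hmod with h | h | h
      · exact cyc0 Gᶜ (Fintype.card V / 3) (by omega) hdg
      · exact cyc1 Gᶜ (Fintype.card V / 3) (by omega) hdg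
      · exact cyc2 Gᶜ (Fintype.card V / 3) (by omega) hdg
    obtain ⟨σ, hσ⟩ := key
    exact fin G r (Fintype.card V / 3) hm σ (fun x y hxy hG hlt => hσ x y (hcomp x y hxy hG) hlt)
  · by_cases h2 : 2 * (r + 1) ≤ Fintype.card V
    · have he3 : e < 3 := by
        by_contra hcon
        have : (r + 1) * 3 ≤ (r + 1) * e := Nat.mul_le_mul_left _ (by omega)
        omega
      have hdg : ∀ v, dg Gᶜ Finset.univ v ≤ 1 := by
        intro v
        have := hdc v
        omega
      have hm : r + 1 ≤ Fintype.card V / 2 := by omega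
      have key : ∃ σ : V ≃ Fin (Fintype.card V), ∀ x y, Gᶜ.Adj x y → (σ x).val < (σ y).val →
          Fintype.card V / 2 ≤ (σ y).val - (σ x).val ∧
            (σ y).val - (σ x).val ≤ Fintype.card V - Fintype.card V / 2 := by
        have hmod : Fintype.card V % 2 = 0 ∨ Fintype.card V % 2 = 1 := by
          omega
        rcases hmod with h | h
        · exact mat0 Gᶜ (Fintype.card V / 2) (by omega) hdg
        · exact mat1 Gᶜ (Fintype.card V / 2) (by omega) hdg
      obtain ⟨σ, hσ⟩ := key
      exact fin G r (Fintype.card V / 2) hm σ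
        (fun x y hxy hG hlt => hσ x y (hcomp x y hxy hG) hlt)
    · have he3 : e < 2 := by
        by_contra hcon
        have : (r + 1) * 2 ≤ (r + 1) * e := Nat.mul_le_mul_left _ (by omega)
        omega
      have hdg : ∀ v, dg Gᶜ Finset.univ v = 0 := by
        intro v
        have := hdc v
        omega
      refine ⟨(Fintype.equivFin V).symm, ?_⟩
      intro i k hki _
      by_contra hG
      have hne : (Fintype.equivFin V).symm i ≠ (Fintype.equivFin V).symm k := by
        intro h
        exact hki ((Fintype.equivFin V).symm.injective h).symm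
      have hadj := hcomp _ _ hne hG
      have h0 := hdg ((Fintype.equivFin V).symm i)
      unfold dg at h0
      rw [Finset.card_eq_zero] at h0
      have hmem : (Fintype.equivFin V).symm k ∈
          (∅ : Finset V) := by
        rw [← h0]
        simp only [Finset.mem_filter, Finset.mem_univ, true_and]
        exact hadj
      simp at hmem

end SY
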